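import Pool.Agent.H974R2.Basic

/-!
Concentration for weighted sums of indicators, on the space of finite sets of edges.
-/

set_option autoImplicit false

namespace Pool.Agent.TH966.CF

open Finset H974

variable {E : Type*} [DecidableEq E]

theorem markov {p : E → ℝ} (hp : Ok p) {S : Finset E} {V : Finset E → ℝ} (hV : ∀ F, 0 ≤ V F)
    {a b : ℝ} (ha : 0 < a) (h : Ex p S V ≤ b) : Pr p S (fun F => a ≤ V F) ≤ b / a := by
  rw [le_div_iff₀ ha, mul_comm]
  refine le_trans ?_ h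
  unfold Pr
  rw [← Ex_mul_left]
  apply Ex_mono hp
  intro F _
  by_cases h1 : a ≤ V F
  · rw [ind_of h1, mul_one]; exact h1
  · rw [ind_not_of h1, mul_zero]; exact hV F

theorem Ex_sum2 {ι : Type*} (p : E → ℝ) (S : Finset E) (T : Finset ι) (f : ι → ι → ℝ)
    (A : ι → ι → Finset E → Prop) :
    Ex p S (fun F => ∑ x ∈ T, ∑ y ∈ T, f x y * ind (A x y F)) =
      ∑ x ∈ T, ∑ y ∈ T, f x y * Pr p S (A x y) := by
  rw [Ex_sum p S T (fun x F => ∑ y ∈ T, f x y * ind (A x y F))]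
  refine Finset.sum_congr rfl fun x _ => ?_
  rw [Ex_sum p S T (fun y F => f x y * ind (A x y F))]
  refine Finset.sum_congr rfl fun y _ => ?_
  rw [Ex_mul_left]
  rfl

/-- With high probability the weighted sum is at least half of its mean, and the weighted sum over
pairs is not large. -/
theorem conc {p : E → ℝ} (hp : Ok p) {S : Finset E} {ι : Type*} (T : Finset ι) (w : ι → ℝ)
    (hw : ∀ x ∈ T, 0 ≤ w x) (hw1 : ∑ x ∈ T, w x = 1) (H : ι → Finset E → Prop) {q : ℝ}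
    (hq : 0 < q) (h1 : ∀ x ∈ T, Pr p S (H x) = q) (κ : ι → ι → ℝ)
    (h2 : ∀ x ∈ T, ∀ y ∈ T, Pr p S (fun F => H x F ∧ H y F) ≤ q ^ 2 * (1 + κ x y)) {v : ℝ}
    (hv : ∑ x ∈ T, ∑ y ∈ T, w x * w y * κ x y ≤ v) (ϰ : ι → ι → ℝ) (hϰ : ∀ x y, 0 ≤ ϰ x y)
    {J : ℝ} (hJ0 : 0 < J) (hJ : ∑ x ∈ T, ∑ y ∈ T, w x * w y * ((1 + κ x y) * ϰ x y) ≤ J) {ε : ℝ}
    (hε : 0 < ε) :
    Pr p S (fun F => ¬ (q / 2 ≤ ∑ x ∈ T, w x * ind (H x F) ∧
      ∑ x ∈ T, ∑ y ∈ T, w x * w y * ϰ x y * ind (H x F ∧ H y F) ≤ q ^ 2 * J / ε)) ≤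
      4 * v + ε := by
  set Z : Finset E → ℝ := fun F => ∑ x ∈ T, w x * ind (H x F) with hZ
  set V : Finset E → ℝ := fun F =>
    ∑ x ∈ T, ∑ y ∈ T, w x * w y * ϰ x y * ind (H x F ∧ H y F) with hV
  have hEZ : Ex p S Z = q := by
    rw [hZ, Ex_sum p S T (fun x F => w x * ind (H x F))]
    calc ∑ x ∈ T, Ex p S (fun F => w x * ind (H x F)) = ∑ x ∈ T, w x * q := by
          refine Finset.sum_congr rfl fun x hx => ?_
          rw [Ex_mul_left]
          have : Ex p S (fun F => ind (H x F)) = Pr p S (H x) := rfl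
          rw [this, h1 x hx]
      _ = q := by rw [← Finset.sum_mul, hw1, one_mul]
  have hZ2 : ∀ F, Z F ^ 2 = ∑ x ∈ T, ∑ y ∈ T, w x * w y * ind (H x F ∧ H y F) := by
    intro F
    rw [hZ, sq, Finset.sum_mul_sum]
    refine Finset.sum_congr rfl fun x _ => Finset.sum_congr rfl fun y _ => ?_
    rw [ind_and]
    ring
  have hww : ∑ x ∈ T, ∑ y ∈ T, w x * w y = 1 := by
    rw [← Finset.sum_mul_sum, hw1, one_mul]
  have hEZ2 : Ex p S (fun F => Z F ^ 2) ≤ q ^ 2 * (1 + v) := by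
    simp_rw [hZ2]
    rw [Ex_sum2]
    calc ∑ x ∈ T, ∑ y ∈ T, w x * w y * Pr p S (fun F => H x F ∧ H y F)
        ≤ ∑ x ∈ T, ∑ y ∈ T, w x * w y * (q ^ 2 * (1 + κ x y)) :=
          Finset.sum_le_sum fun x hx => Finset.sum_le_sum fun y hy =>
            mul_le_mul_of_nonneg_left (h2 x hx y hy) (mul_nonneg (hw x hx) (hw y hy))
      _ = q ^ 2 * (∑ x ∈ T, ∑ y ∈ T, w x * w y + ∑ x ∈ T, ∑ y ∈ T, w x * w y * κ x y) := by
          rw [← Finset.sum_add_distrib, Finset.mul_sum]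
          refine Finset.sum_congr rfl fun x _ => ?_
          rw [← Finset.sum_add_distrib, Finset.mul_sum]
          refine Finset.sum_congr rfl fun y _ => ?_
          ring
      _ ≤ q ^ 2 * (1 + v) := by
          apply mul_le_mul_of_nonneg_left _ (by positivity)
          rw [hww]
          linarith
  have hVar : Ex p S (fun F => (Z F - q) ^ 2) ≤ q ^ 2 * v := by
    have e : (fun F => (Z F - q) ^ 2) = fun F => (Z F ^ 2 + (-(2 * q)) * Z F) + q ^ 2 := by
      funext F; ring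
    rw [e, Ex_add p S (fun F => Z F ^ 2 + (-(2 * q)) * Z F) (fun _ => q ^ 2),
      Ex_add p S (fun F => Z F ^ 2) (fun F => (-(2 * q)) * Z F), Ex_mul_left, Ex_const, hEZ]
    nlinarith
  have hA : Pr p S (fun F => ¬ q / 2 ≤ Z F) ≤ 4 * v := by
    have h3 := markov hp (S := S) (V := fun F => (Z F - q) ^ 2) (fun F => sq_nonneg _)
      (a := q ^ 2 / 4) (b := q ^ 2 * v) (by positivity) hVar
    refine (Pr_mono hp ?_).trans (h3.trans (le_of_eq ?_))
    · intro F _ hF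
      rw [not_le] at hF
      nlinarith
    · field_simp
  have hVE : Ex p S V ≤ q ^ 2 * J := by
    rw [hV, Ex_sum2]
    refine le_trans ?_ (mul_le_mul_of_nonneg_left hJ (by positivity))
    rw [Finset.mul_sum]
    refine Finset.sum_le_sum fun x hx => ?_
    rw [Finset.mul_sum]
    refine Finset.sum_le_sum fun y hy => ?_
    have h3 := mul_le_mul_of_nonneg_left (h2 x hx y hy)
      (mul_nonneg (mul_nonneg (hw x hx) (hw y hy)) (hϰ x y))
    linarith
  have hB : Pr p S (fun F => ¬ V F ≤ q ^ 2 * J / ε) ≤ ε := by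
    have h3 := markov hp (S := S) (V := V) (fun F => Finset.sum_nonneg fun x hx =>
      Finset.sum_nonneg fun y hy => mul_nonneg (mul_nonneg (mul_nonneg (hw x hx) (hw y hy))
        (hϰ x y)) (ind_nonneg _)) (a := q ^ 2 * J / ε) (b := q ^ 2 * J) (by positivity) hVE
    refine (Pr_mono hp ?_).trans (h3.trans (le_of_eq ?_))
    · intro F _ hF
      exact (not_le.mp hF).le
    · field_simp
  refine (Pr_mono hp (B := fun F => (¬ q / 2 ≤ Z F) ∨ ¬ V F ≤ q ^ 2 * J / ε) ?_).trans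
    ((Pr_or_le hp S _ _).trans (add_le_add hA hB))
  intro F _ hF
  by_contra hcon
  push Not at hcon
  exact hF hcon

end Pool.Agent.TH966.CF
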