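import Pool.Agent.TH966.CF.Cross

/-!
Only finitely many members of the limit collection are large.
-/

set_option autoImplicit false
set_option maxHeartbeats 1000000

namespace Pool.Agent.TH966.CF

open H974 H934E Pool.Agent.H160R2.CV MeasureTheory TopologicalSpace Filter Topology Metric Set
open Pool.Agent.H389R2.Dim Pool.Agent.H389R2.CD Pool.Agent.H389R2.CL
open Pool.Agent.H160R2.CV.Quad
open scoped ENNReal NNReal

theorem kOcc_of {E ι : Type*} [DecidableEq E] {A : Finset E → Prop} (K : ι → Finset E)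
    (I : Finset ι) (hd : ∀ i ∈ I, ∀ j ∈ I, i ≠ j → Disjoint (K i) (K j)) (hA : ∀ i ∈ I, A (K i)) :
    kOcc A I.card (I.biUnion K) := by
  classical
  induction I using Finset.induction_on with
  | empty => trivial
  | insert a I ha ih =>
    rw [Finset.card_insert_of_notMem ha]
    refine ⟨K a, I.biUnion K, ?_, ?_, ?_, hA a (Finset.mem_insert_self _ _), ?_⟩
    · exact Finset.subset_biUnion_of_mem K (Finset.mem_insert_self _ _)
    · exact Finset.biUnion_subset_biUnion_of_subset_left K (Finset.subset_insert _ _)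
    · rw [Finset.disjoint_biUnion_right]
      intro i hi
      exact hd a (Finset.mem_insert_self _ _) i (Finset.mem_insert_of_mem hi)
        (fun h => ha (h ▸ hi))
    · exact ih (fun i hi j hj => hd i (Finset.mem_insert_of_mem hi) j (Finset.mem_insert_of_mem hj))
        (fun i hi => hA i (Finset.mem_insert_of_mem hi))

theorem kOcc_le {E : Type*} {A : Finset E → Prop} {k l : ℕ} (h : l ≤ k) {F : Finset E}
    (hF : kOcc A k F) : kOcc A l F := by
  induction k generalizing l F with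
  | zero =>
    have : l = 0 := by omega
    subst this
    trivial
  | succ k ih =>
    cases l with
    | zero => trivial
    | succ l =>
      obtain ⟨K, L, h1, h2, h3, h4, h5⟩ := hF
      exact ⟨K, L, h1, h2, h3, h4, ih (by omega) h5⟩

/-- Many members in an open class is an open event. -/
def Many {X : Type*} [MetricSpace X] (V : Set (NonemptyCompacts X)) (k : ℕ) :
    Set (NonemptyCompacts (NonemptyCompacts X)) :=
  {𝒞 | ∃ O : Fin k → Set (NonemptyCompacts X), (∀ i, IsOpen (O i)) ∧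
    (∀ i j, i ≠ j → Disjoint (O i) (O j)) ∧ ∀ i, ((𝒞 : Set (NonemptyCompacts X)) ∩
      (O i ∩ V)).Nonempty}

theorem isOpen_Many {X : Type*} [MetricSpace X] {V : Set (NonemptyCompacts X)} (hV : IsOpen V)
    (k : ℕ) : IsOpen (Many V k) := by
  have e : Many V k = ⋃ O ∈ {O : Fin k → Set (NonemptyCompacts X) | (∀ i, IsOpen (O i)) ∧
      (∀ i j, i ≠ j → Disjoint (O i) (O j))}, ⋂ i, {𝒞 : NonemptyCompacts (NonemptyCompacts X) |
        ((𝒞 : Set (NonemptyCompacts X)) ∩ (O i ∩ V)).Nonempty} := by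
    ext 𝒞
    simp only [Many, Set.mem_ofPred_eq, Set.mem_iUnion, Set.mem_iInter, exists_prop, and_assoc]
  rw [e]
  refine isOpen_biUnion fun O hO => isOpen_iInter_of_finite fun i => ?_
  exact NonemptyCompacts.isOpen_inter_nonempty_of_isOpen ((hO.1 i).inter hV)

theorem many_of_infinite {X : Type*} [MetricSpace X] {V : Set (NonemptyCompacts X)}
    {𝒞 : NonemptyCompacts (NonemptyCompacts X)}
    (h : ((𝒞 : Set (NonemptyCompacts X)) ∩ V).Infinite) (k : ℕ) : 𝒞 ∈ Many V k := by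
  obtain ⟨t, ht, hk⟩ := h.exists_subset_card_eq k
  obtain ⟨O, hO, hd⟩ := t.finite_toSet.t2_separation
  have e : t.card = k := hk
  set f := t.equivFinOfCardEq e with hf
  refine ⟨fun i => O (f.symm i), fun i => (hO _).2, ?_, ?_⟩
  · intro i j hij
    apply hd (f.symm i).2 (f.symm j).2
    intro h2
    apply hij
    exact f.symm.injective (Subtype.ext h2)
  · intro i
    have h3 := ht (f.symm i).2
    exact ⟨(f.symm i : NonemptyCompacts X), h3.1, (hO _).1, h3.2⟩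

/-- Discrete bound for the number of clusters crossing an annulus. -/
theorem many_le (hAr : ArS) : ∃ C : ℝ, 0 < C ∧ ∀ (R : Rect) (z : ℂ) (ρ s δ : ℝ), 0 < s →
    16 * s ≤ ρ → csq z ρ ⊆ R.D → 0 < δ → 16 * δ ≤ s → ∀ k : ℕ,
    Pr P (R.edges δ) (fun F => coll R δ F ∈ Many (Vc z s ρ) k) ≤
      (C * (s / ρ) ^ ((5 : ℝ) / 48)) ^ k := by
  obtain ⟨C, hC, hb⟩ := barm_le hAr
  refine ⟨C * 4, by positivity, ?_⟩
  intro R z ρ s δ hs hsρ hD hδ hδs k
  obtain ⟨c, r, n, hr1, hrn, hrat, hev⟩ := cross_det R z ρ s δ hs hsρ hD hδ hδs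
  have hρ : 0 < ρ := by linarith
  have hk : Pr P (R.edges δ) (kOcc (Ex1 c r n) k) ≤ (barm (1 / 2) r n) ^ k := by
    refine (pr_kOcc w_ok (A := Ex1 c r n) (fun F G h hF => BArm.mono (LSym.mp_mono _ h) hF) k).trans ?_
    exact pow_le_pow_left₀ (Pr_nonneg w_ok _ _) (pr_Ex1 _ c r n) k
  have hbar : barm (1 / 2) r n ≤ C * 4 * (s / ρ) ^ ((5 : ℝ) / 48) := by
    refine (hb r n hr1 hrn).trans ?_
    rw [mul_assoc]
    apply mul_le_mul_of_nonneg_left _ hC.le
    calc ((r : ℝ) / n) ^ ((5 : ℝ) / 48) ≤ (4 * (s / ρ)) ^ ((5 : ℝ) / 48) :=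
          Real.rpow_le_rpow (by positivity) hrat (by norm_num)
      _ = 4 ^ ((5 : ℝ) / 48) * (s / ρ) ^ ((5 : ℝ) / 48) :=
          Real.mul_rpow (by norm_num) (by positivity)
      _ ≤ 4 * (s / ρ) ^ ((5 : ℝ) / 48) := by
          apply mul_le_mul_of_nonneg_right _ (by positivity)
          calc (4 : ℝ) ^ ((5 : ℝ) / 48) ≤ 4 ^ (1 : ℝ) :=
                Real.rpow_le_rpow_of_exponent_le (by norm_num) (by norm_num)
            _ = 4 := Real.rpow_one _
  refine le_trans (Pr_mono w_ok ?_) (hk.trans (pow_le_pow_left₀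
    (barm_nonneg (by norm_num) (by norm_num) _ _) hbar k))
  rintro F _ ⟨O, hO, hd, hne⟩
  classical
  choose L hL1 hL2 hL3 using hne
  choose v hv using fun i => mem_coll (hL1 i)
  set K : Fin k → Finset Edg := fun i => F.filter (fun e => src e ∈ cluAt R δ F (v i)) with hK
  have hdis : ∀ i ∈ (Finset.univ : Finset (Fin k)), ∀ j ∈ (Finset.univ : Finset (Fin k)), i ≠ j →
      Disjoint (K i) (K j) := by
    intro i _ j _ hij
    rw [Finset.disjoint_left]
    intro e h1 h2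
    rw [hK, Finset.mem_filter] at h1
    rw [hK, Finset.mem_filter] at h2
    have hreach : Reach (↑F ∪ R.wired δ) (v i) (v j) := Reach.trans h1.2 (Reach.symm h2.2)
    have hclu : cluAt R δ F (v i) = cluAt R δ F (v j) := by
      ext u
      exact ⟨fun h => hreach.symm.trans h, fun h => hreach.trans h⟩
    have hset : csetAt R δ F (v i) = csetAt R δ F (v j) := by
      unfold csetAt
      rw [hclu]
    have heq : clAt R δ F (v i) = clAt R δ F (v j) := NonemptyCompacts.ext hset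
    have h3 : L i = L j := by rw [hv i, hv j, heq]
    have h4 := hL2 j
    rw [← h3] at h4
    exact Set.disjoint_left.mp (hd i j hij) (hL2 i) h4
  have hA : ∀ i ∈ (Finset.univ : Finset (Fin k)), Ex1 c r n (K i) := by
    intro i _
    have h3 := hL3 i
    rw [hv i] at h3
    obtain ⟨⟨w, hw1, hw2⟩, ⟨w', hw1', hw2'⟩⟩ := h3
    obtain ⟨u, hu, hu1⟩ := csetAt_near R hδ.le hw1
    obtain ⟨u', hu', hu1'⟩ := csetAt_near R hδ.le hw1'
    refine hev (K i) u u' w w' hw2 hw2' hu1 hu1' ?_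
    have hreach : Reach (↑F ∪ R.wired δ) u u' := Reach.trans (Reach.symm hu) hu'
    refine GR_restrict (s := src) (t := tgt) hreach ?_
    intro e he hse
    rcases he with he | he
    · left
      rw [hK]
      simp only [Finset.coe_filter, Set.mem_ofPred_eq]
      exact ⟨Finset.mem_coe.mp he, Reach.trans hu hse⟩
    · exact Or.inr he
  have h5 := kOcc_of K (Finset.univ : Finset (Fin k)) hdis hA
  rw [Finset.card_univ, Fintype.card_fin] at h5
  refine kOcc_mono ?_ h5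
  intro e he
  rw [Finset.mem_biUnion] at he
  obtain ⟨i, _, hi⟩ := he
  exact (Finset.mem_filter.mp hi).1

section

variable (hAr : ArS) (R : Rect) {δ : ℕ → ℝ} (hδ : ∀ i, 0 < δ i) (hlim : Tendsto δ atTop (𝓝 0))
  {μ : ProbabilityMeasure (NonemptyCompacts (NonemptyCompacts ℂ))}
  (hμ : Tendsto (fun i => collLaw R (δ i)) atTop (𝓝 μ))

include hAr hδ hlim hμ

/-- Finitely many clusters cross a thick annulus. -/
theorem finite_cross : ∃ M : ℝ, 16 ≤ M ∧ ∀ (z : ℂ) (ρ : ℝ), 0 < ρ → csq z ρ ⊆ R.D →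
    ∀ᵐ 𝒞 : NonemptyCompacts (NonemptyCompacts ℂ)
      ∂(μ : Measure (NonemptyCompacts (NonemptyCompacts ℂ))),
      ((𝒞 : Set (NonemptyCompacts ℂ)) ∩ Vc z (ρ / M) ρ).Finite := by
  obtain ⟨C, hC, h⟩ := many_le hAr
  obtain ⟨M, hM1, hM2⟩ : ∃ M : ℝ, 16 ≤ M ∧ C * (1 / M) ^ ((5 : ℝ) / 48) ≤ 1 / 2 := by
    have hl : Tendsto (fun M : ℝ => C * (1 / M) ^ ((5 : ℝ) / 48)) atTop
        (𝓝 (C * 0 ^ ((5 : ℝ) / 48))) := by
      have h0 : Tendsto (fun M : ℝ => 1 / M) atTop (𝓝 0) := by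
        simp only [one_div]
        exact tendsto_inv_atTop_zero
      exact (h0.rpow_const (Or.inr (by norm_num))).const_mul C
    rw [Real.zero_rpow (by norm_num), mul_zero] at hl
    obtain ⟨M, h1, h2⟩ := ((hl.eventually_lt_const (show (0 : ℝ) < 1 / 2 by norm_num)).and
      (eventually_ge_atTop 16)).exists
    exact ⟨M, h2, h1.le⟩
  refine ⟨M, hM1, ?_⟩
  intro z ρ hρ hD
  have hM0 : 0 < M := by linarith
  have hs : 0 < ρ / M := by positivity
  have hsρ : 16 * (ρ / M) ≤ ρ := by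
    rw [← mul_div_assoc, div_le_iff₀ hM0]
    nlinarith
  have key : ∀ k : ℕ, (μ : Measure (NonemptyCompacts (NonemptyCompacts ℂ)))
      {𝒞 | ((𝒞 : Set (NonemptyCompacts ℂ)) ∩ Vc z (ρ / M) ρ).Infinite} ≤
      ENNReal.ofReal ((1 / 2) ^ k) := by
    intro k
    have hopen := isOpen_Many (isOpen_Vc z (ρ / M) ρ) k
    refine (measure_mono (fun 𝒞 h𝒞 => many_of_infinite h𝒞 k)).trans ?_
    refine (ProbabilityMeasure.le_liminf_measure_open_of_tendsto hμ hopen).trans ?_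
    apply Filter.liminf_le_of_frequently_le'
    apply Eventually.frequently
    filter_upwards [hlim.eventually_lt_const (show (0 : ℝ) < ρ / M / 16 by positivity)] with i hi
    rw [collLaw_apply _ _ hopen.measurableSet]
    apply ENNReal.ofReal_le_ofReal
    refine (h R z ρ (ρ / M) (δ i) hs hsρ hD (hδ i) (by linarith) k).trans ?_
    apply pow_le_pow_left₀ (by positivity)
    have e : ρ / M / ρ = 1 / M := by field_simp
    rw [e]
    exact hM2
  rw [ae_iff]
  have e : {𝒞 : NonemptyCompacts (NonemptyCompacts ℂ) |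
      ¬ ((𝒞 : Set (NonemptyCompacts ℂ)) ∩ Vc z (ρ / M) ρ).Finite} =
      {𝒞 : NonemptyCompacts (NonemptyCompacts ℂ) |
        ((𝒞 : Set (NonemptyCompacts ℂ)) ∩ Vc z (ρ / M) ρ).Infinite} := rfl
  rw [e, ← nonpos_iff_eq_zero]
  have hl : Tendsto (fun k : ℕ => ENNReal.ofReal ((1 / 2 : ℝ) ^ k)) atTop (𝓝 0) := by
    rw [← ENNReal.ofReal_zero]
    exact ENNReal.tendsto_ofReal (tendsto_pow_atTop_nhds_zero_of_lt_one (by norm_num) (by norm_num))
  exact ge_of_tendsto' hl key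

/-- For every `ε > 0` only finitely many members have diameter at least `ε`. -/
theorem finite_large : ∀ᵐ 𝒞 : NonemptyCompacts (NonemptyCompacts ℂ)
    ∂(μ : Measure (NonemptyCompacts (NonemptyCompacts ℂ))),
    ∀ ε : ℝ, 0 < ε → {K : NonemptyCompacts ℂ | K ∈ 𝒞 ∧ ε ≤ diam (K : Set ℂ)}.Finite := by
  obtain ⟨M, hM, h⟩ := finite_cross hAr R hδ hlim hμ
  have hM0 : 0 < M := by linarith
  have key : ∀ (a b : ℚ) (n : ℕ), ∀ᵐ 𝒞 : NonemptyCompacts (NonemptyCompacts ℂ)
      ∂(μ : Measure (NonemptyCompacts (NonemptyCompacts ℂ))),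
      csq (⟨a, b⟩ : ℂ) (1 / ((n : ℝ) + 1)) ⊆ R.D →
      ((𝒞 : Set (NonemptyCompacts ℂ)) ∩
        Vc (⟨a, b⟩ : ℂ) (1 / ((n : ℝ) + 1) / M) (1 / ((n : ℝ) + 1))).Finite := by
    intro a b n
    by_cases hD : csq (⟨a, b⟩ : ℂ) (1 / ((n : ℝ) + 1)) ⊆ R.D
    · filter_upwards [h ⟨a, b⟩ (1 / ((n : ℝ) + 1)) (by positivity) hD] with 𝒞 h𝒞 _
      exact h𝒞
    · exact Eventually.of_forall fun _ h' => absurd h' hD
  filter_upwards [coll_bdry R hδ hlim hμ, ae_all_iff.mpr (fun a => ae_all_iff.mpr (fun b =>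
    ae_all_iff.mpr (fun n => key a b n)))] with 𝒞 h1 h2 ε hε
  -- the compact set of the large members
  have hcomp : IsCompact ((𝒞 : Set (NonemptyCompacts ℂ)) ∩
      {K : NonemptyCompacts ℂ | ε ≤ diam (K : Set ℂ)}) :=
    𝒞.isCompact.inter_right (isClosed_diam_ge ε)
  obtain ⟨I, hI⟩ : ∃ I : Set (ℚ × ℚ × ℕ), I = {p | csq (⟨p.1, p.2.1⟩ : ℂ)
      (1 / ((p.2.2 : ℝ) + 1)) ⊆ R.D} := ⟨_, rfl⟩
  obtain ⟨J, hJI, hJf, hJ⟩ := hcomp.elim_finite_subcover_image (b := I)
    (c := fun p => Vc (⟨p.1, p.2.1⟩ : ℂ) (1 / ((p.2.2 : ℝ) + 1) / M) (1 / ((p.2.2 : ℝ) + 1)))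
    (fun p _ => isOpen_Vc _ _ _) (by
      rintro K ⟨hK, hd⟩
      have hd' : ε ≤ diam (K : Set ℂ) := hd
      have hnt : (K : Set ℂ).Nontrivial := by
        by_contra hcon
        rw [Set.not_nontrivial_iff] at hcon
        rw [diam_subsingleton hcon] at hd'
        linarith
      obtain ⟨w0, hw0⟩ := K.nonempty
      obtain ⟨x, ⟨hx1, -⟩, hx2⟩ := h1 K hK hnt w0 hw0 1 one_pos
      obtain ⟨e, he, hball⟩ := Metric.isOpen_iff.mp (isOpen_D R) x hx2
      obtain ⟨n, hn⟩ := exists_nat_one_div_lt (show (0 : ℝ) < min (e / 8) (ε / 8) by positivity)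
      rw [lt_min_iff] at hn
      have hn0 : (0 : ℝ) < 1 / ((n : ℝ) + 1) := by positivity
      obtain ⟨a, b, hab⟩ := exists_rat_sq x (show 0 < 1 / ((n : ℝ) + 1) / M by positivity)
      have hsm : 1 / ((n : ℝ) + 1) / M ≤ 1 / ((n : ℝ) + 1) := div_le_self hn0.le (by linarith)
      refine Set.mem_iUnion₂.mpr ⟨(a, b, n), ?_, ⟨x, hx1, hab⟩, ?_⟩
      · rw [hI]
        show csq (⟨a, b⟩ : ℂ) (1 / ((n : ℝ) + 1)) ⊆ R.D
        refine Set.Subset.trans (csq_sub_ball (w := x) (ε := e) ?_) hball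
        obtain ⟨k1, k2⟩ := hab
        rw [abs_sub_comm] at k1 k2
        have k1' : |(a : ℝ) - x.re| < 1 / ((n : ℝ) + 1) / M := k1
        have k2' : |(b : ℝ) - x.im| < 1 / ((n : ℝ) + 1) / M := k2
        show |(a : ℝ) - x.re| + |(b : ℝ) - x.im| + 2 * (1 / ((n : ℝ) + 1)) < e
        linarith [hn.1]
      · by_contra hcon
        rw [Set.not_nonempty_iff_eq_empty] at hcon
        have hK2 : (K : Set ℂ) ⊆ csq (⟨a, b⟩ : ℂ) (1 / ((n : ℝ) + 1)) := by
          intro y hy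
          by_contra hy2
          have : y ∈ (K : Set ℂ) ∩ (csq (⟨a, b⟩ : ℂ) (1 / ((n : ℝ) + 1)))ᶜ := ⟨hy, hy2⟩
          rw [hcon] at this
          exact this
        have := csq_diam hn0.le hK2
        linarith [hn.2])
  have hfin : (⋃ p ∈ J, ((𝒞 : Set (NonemptyCompacts ℂ)) ∩
      Vc (⟨p.1, p.2.1⟩ : ℂ) (1 / ((p.2.2 : ℝ) + 1) / M) (1 / ((p.2.2 : ℝ) + 1)))).Finite := by
    apply hJf.biUnion
    intro p hp
    have h3 := hJI hp
    rw [hI] at h3
    exact h2 p.1 p.2.1 p.2.2 h3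
  refine hfin.subset ?_
  rintro K ⟨hK, hd⟩
  obtain ⟨p, hp, hKp⟩ := Set.mem_iUnion₂.mp (hJ ⟨hK, hd⟩)
  exact Set.mem_iUnion₂.mpr ⟨p, hp, hK, hKp⟩

end

end Pool.Agent.TH966.CF
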