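import Pool.Agent.TH966.CF.Upper
import Pool.Agent.H974R2.Count
import Pool.Agent.H389R2.CL.Lo

/-!
Only finitely many clusters are large.
-/

set_option autoImplicit false
set_option maxHeartbeats 1000000

namespace Pool.Agent.TH966.CF

open H974 H934E Pool.Agent.H160R2.CV MeasureTheory TopologicalSpace Filter Topology Metric Set
open Pool.Agent.H389R2.Dim Pool.Agent.H389R2.CD Pool.Agent.H389R2.CL
open Pool.Agent.H160R2.CV.Quad
open scoped ENNReal NNReal

/-- Clusters which meet a square and leave a larger one cross a lattice annulus. -/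
theorem cross_det (R : Rect) (z : ℂ) (ρ s δ : ℝ) (hs : 0 < s)
    (hsρ : 16 * s ≤ ρ) (hD : csq z ρ ⊆ R.D) (hδ : 0 < δ) (hδs : 16 * δ ≤ s) :
    ∃ (c : Vtx) (r n : ℕ), 1 ≤ r ∧ 3 * r ≤ n ∧ (r : ℝ) / n ≤ 4 * (s / ρ) ∧
      ∀ (F : Finset Edg) (v v' : Vtx) (w w' : ℂ), w ∈ sq z s → w' ∈ (csq z ρ)ᶜ →
      (|w.re - (pt δ v).re| ≤ δ ∧ |w.im - (pt δ v).im| ≤ δ) →
      (|w'.re - (pt δ v').re| ≤ δ ∧ |w'.im - (pt δ v').im| ≤ δ) →
      Reach (↑F ∪ R.wired δ) v v' → Ex1 c r n F := by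
  have hρ : 0 < ρ := by linarith
  -- the square is inside the rectangle
  have m1 : (⟨z.re - ρ, z.im⟩ : ℂ) ∈ R.D := hD (by
    unfold csq
    simp only [Set.mem_ofPred_eq]
    constructor
    · rw [show z.re - ρ - z.re = -ρ by ring, abs_neg, abs_of_pos hρ]
    · rw [sub_self, abs_zero]; exact hρ.le)
  have m2 : (⟨z.re + ρ, z.im⟩ : ℂ) ∈ R.D := hD (by
    unfold csq
    simp only [Set.mem_ofPred_eq]
    constructor
    · rw [show z.re + ρ - z.re = ρ by ring, abs_of_pos hρ]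
    · rw [sub_self, abs_zero]; exact hρ.le)
  have m3 : (⟨z.re, z.im - ρ⟩ : ℂ) ∈ R.D := hD (by
    unfold csq
    simp only [Set.mem_ofPred_eq]
    constructor
    · rw [sub_self, abs_zero]; exact hρ.le
    · rw [show z.im - ρ - z.im = -ρ by ring, abs_neg, abs_of_pos hρ])
  have m4 : (⟨z.re, z.im + ρ⟩ : ℂ) ∈ R.D := hD (by
    unfold csq
    simp only [Set.mem_ofPred_eq]
    constructor
    · rw [sub_self, abs_zero]; exact hρ.le
    · rw [show z.im + ρ - z.im = ρ by ring, abs_of_pos hρ])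
  unfold Rect.D at m1 m2 m3 m4
  simp only [Set.mem_ofPred_eq] at m1 m2 m3 m4
  have h1 : ρ ≤ z.re + R.A := by obtain ⟨_, _, _⟩ := m1; linarith
  have h2 : ρ ≤ z.im := by obtain ⟨_, _, _⟩ := m3; linarith
  have h3 : ρ ≤ R.H - z.im := by obtain ⟨_, _, _⟩ := m4; linarith
  have h4 : ρ ≤ R.B - z.re := by obtain ⟨_, _, _⟩ := m2; linarith
  set c : Vtx := (⌊z.re / δ⌋, ⌊z.im / δ⌋ - 1) with hc
  set r : ℕ := ⌈s / δ⌉₊ + 2 with hr
  set n : ℕ := ⌊ρ / δ⌋₊ - 3 with hn
  have q1 : 16 ≤ s / δ := by rw [le_div_iff₀ hδ]; exact hδs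
  have q2 : 16 * (s / δ) ≤ ρ / δ := by
    rw [← mul_div_assoc]; exact div_le_div_of_nonneg_right hsρ hδ.le
  have r1 : (⌈s / δ⌉₊ : ℝ) < s / δ + 1 := Nat.ceil_lt_add_one (by positivity)
  have r2 : s / δ ≤ (⌈s / δ⌉₊ : ℝ) := Nat.le_ceil _
  have n1 : (⌊ρ / δ⌋₊ : ℝ) ≤ ρ / δ := Nat.floor_le (by positivity)
  have n2 : ρ / δ < (⌊ρ / δ⌋₊ : ℝ) + 1 := Nat.lt_floor_add_one _
  have hn3 : 3 ≤ ⌊ρ / δ⌋₊ := by
    rw [Nat.le_floor_iff (by positivity)]
    push_cast
    linarith
  have nR : (n : ℝ) = (⌊ρ / δ⌋₊ : ℝ) - 3 := by rw [hn, Nat.cast_sub hn3]; norm_num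
  have rR : (r : ℝ) = (⌈s / δ⌉₊ : ℝ) + 2 := by rw [hr]; push_cast; ring
  have hrn : 3 * r ≤ n := by
    have : ((3 * r : ℕ) : ℝ) ≤ (n : ℝ) := by
      push_cast
      rw [nR, rR]
      linarith
    exact_mod_cast this
  have f1 : (⌊z.re / δ⌋ : ℝ) ≤ z.re / δ := Int.floor_le _
  have f2 : z.re / δ < (⌊z.re / δ⌋ : ℝ) + 1 := Int.lt_floor_add_one _
  have f3 : (⌊z.im / δ⌋ : ℝ) ≤ z.im / δ := Int.floor_le _
  have f4 : z.im / δ < (⌊z.im / δ⌋ : ℝ) + 1 := Int.lt_floor_add_one _
  have d1 : ρ / δ ≤ z.re / δ + R.A / δ := by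
    rw [← add_div]; exact div_le_div_of_nonneg_right h1 hδ.le
  have d2 : ρ / δ ≤ z.im / δ := div_le_div_of_nonneg_right h2 hδ.le
  have d3 : ρ / δ ≤ R.H / δ - z.im / δ := by
    rw [← sub_div]; exact div_le_div_of_nonneg_right h3 hδ.le
  -- the event
  have hev : ∀ (F : Finset Edg) (v v' : Vtx) (w w' : ℂ), w ∈ sq z s → w' ∈ (csq z ρ)ᶜ →
      (|w.re - (pt δ v).re| ≤ δ ∧ |w.im - (pt δ v).im| ≤ δ) →
      (|w'.re - (pt δ v').re| ≤ δ ∧ |w'.im - (pt δ v').im| ≤ δ) →
      Reach (↑F ∪ R.wired δ) v v' → Ex1 c r n F := by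
    rintro F v v' w w' ⟨hw2, hw3⟩ hw2' ⟨hv1, hv2⟩ ⟨hv1', hv2'⟩ hreach
    unfold pt at hv1 hv2 hv1' hv2'
    simp only at hv1 hv2 hv1' hv2'
    rw [abs_le] at hv1 hv2 hv1' hv2'
    rw [abs_lt] at hw2 hw3
    have g1 : δ * |(v.1 : ℝ) - z.re / δ| ≤ s + δ := by
      rw [← abs_of_pos hδ, ← abs_mul, abs_of_pos hδ, mul_sub, mul_div_cancel₀ _ hδ.ne', abs_le]
      constructor <;> linarith
    have g2 : δ * |(v.2 : ℝ) + 1 - z.im / δ| ≤ s + δ := by
      rw [← abs_of_pos hδ, ← abs_mul, abs_of_pos hδ, mul_sub, mul_div_cancel₀ _ hδ.ne', abs_le]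
      constructor <;> linarith
    have g3 : |(v.1 : ℝ) - z.re / δ| ≤ s / δ + 1 := by
      rw [show s / δ + 1 = (s + δ) / δ by field_simp, le_div_iff₀ hδ, mul_comm]; exact g1
    have g4 : |(v.2 : ℝ) + 1 - z.im / δ| ≤ s / δ + 1 := by
      rw [show s / δ + 1 = (s + δ) / δ by field_simp, le_div_iff₀ hδ, mul_comm]; exact g2
    rw [abs_le] at g3 g4
    refine Ex1_of_reach (A := R.wired δ) (v := v') (u := v) (by omega) ?_ ?_ ?_ hreach
    · -- wired edges are outside
      rintro ⟨x, y, b⟩ he hE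
      unfold Rect.wired at he
      simp only [Set.mem_ofPred_eq] at he
      have u1 : (c.1 : ℝ) - n ≥ -(R.A / δ) + 2 := by
        rw [nR, hc]; simp only; linarith
      have u2 : (c.2 : ℝ) - n ≥ 1 := by
        rw [nR, hc]; simp only; push_cast; linarith
      have u3 : (c.2 : ℝ) + n ≤ R.H / δ - 4 := by
        rw [nR, hc]; simp only; push_cast; linarith
      have hx0 : (R.x0 δ : ℝ) ≤ -(R.A / δ) + 1 := by
        unfold Rect.x0
        push_cast
        linarith [Int.floor_le (-(R.A / δ))]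
      have hy1 : R.H / δ - 2 ≤ (R.y1 δ : ℝ) := by
        unfold Rect.y1
        push_cast
        linarith [Int.le_ceil (R.H / δ)]
      have v1 : R.x0 δ < c.1 - n := by
        have : (R.x0 δ : ℝ) < ((c.1 - n : ℤ) : ℝ) := by push_cast; linarith
        exact_mod_cast this
      have v2 : 0 < c.2 - n := by
        have : (0 : ℝ) < ((c.2 - n : ℤ) : ℝ) := by push_cast; linarith
        exact_mod_cast this
      have v3 : c.2 + n < R.y1 δ := by
        have : ((c.2 + n : ℤ) : ℝ) < (R.y1 δ : ℝ) := by push_cast; linarith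
        exact_mod_cast this
      cases b
      · rw [mem_RE_false] at hE
        rcases he with ⟨h, _⟩ | h | ⟨h, _⟩
        · exact absurd h (by simp)
        · omega
        · exact absurd h (by simp)
      · rw [mem_RE_true] at hE
        rcases he with h | ⟨h, _⟩ | h
        · omega
        · exact absurd h (by simp)
        · omega
    · have k1 : ((c.1 - r : ℤ) : ℝ) ≤ v.1 := by
        push_cast; rw [rR, hc]; simp only; linarith
      have k2 : (v.1 : ℝ) ≤ ((c.1 + r : ℤ) : ℝ) := by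
        push_cast; rw [rR, hc]; simp only; linarith
      have k3 : ((c.2 - r : ℤ) : ℝ) ≤ v.2 := by
        push_cast; rw [rR, hc]; simp only; push_cast; linarith
      have k4 : (v.2 : ℝ) ≤ ((c.2 + r : ℤ) : ℝ) := by
        push_cast; rw [rR, hc]; simp only; push_cast; linarith
      exact ⟨⟨by exact_mod_cast k1, by exact_mod_cast k2⟩, ⟨by exact_mod_cast k3,
        by exact_mod_cast k4⟩⟩
    · -- the far vertex
      have hδm : ∀ x y : ℝ, δ * x ≤ δ * y → x ≤ y := fun x y h => le_of_mul_le_mul_left h hδ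
      have ezr : δ * (z.re / δ) = z.re := mul_div_cancel₀ _ hδ.ne'
      have ezi : δ * (z.im / δ) = z.im := mul_div_cancel₀ _ hδ.ne'
      have eρ : δ * (ρ / δ) = ρ := mul_div_cancel₀ _ hδ.ne'
      have hout : ρ < |w'.re - z.re| ∨ ρ < |w'.im - z.im| := by
        by_contra hcon
        push Not at hcon
        exact hw2' hcon
      rcases hout with ho | ho
      · rcases lt_abs.1 ho with ho | ho
        · right; left
          have t1 : z.re / δ + ρ / δ - 1 ≤ (v'.1 : ℝ) := by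
            apply hδm
            rw [mul_sub, mul_add, ezr, eρ]
            linarith
          have : ((c.1 + n : ℤ) : ℝ) ≤ v'.1 := by
            push_cast; rw [nR, hc]; simp only; linarith
          exact_mod_cast this
        · left
          have t1 : (v'.1 : ℝ) ≤ z.re / δ - ρ / δ + 1 := by
            apply hδm
            rw [mul_add, mul_sub, ezr, eρ]
            linarith
          have : (v'.1 : ℝ) ≤ ((c.1 - n : ℤ) : ℝ) := by
            push_cast; rw [nR, hc]; simp only; linarith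
          exact_mod_cast this
      · rcases lt_abs.1 ho with ho | ho
        · right; right; right
          have t1 : z.im / δ + ρ / δ - 1 ≤ (v'.2 : ℝ) + 1 := by
            apply hδm
            rw [mul_sub, mul_add, ezi, eρ]
            linarith
          have : ((c.2 + n : ℤ) : ℝ) ≤ v'.2 := by
            push_cast; rw [nR, hc]; simp only; push_cast; linarith
          exact_mod_cast this
        · right; right; left
          have t1 : (v'.2 : ℝ) + 1 ≤ z.im / δ - ρ / δ + 1 := by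
            apply hδm
            have e0 : δ * (z.im / δ - ρ / δ + 1) = z.im - ρ + δ := by
              rw [mul_add, mul_sub, ezi, eρ, mul_one]
            rw [e0]
            linarith
          have : (v'.2 : ℝ) ≤ ((c.2 - n : ℤ) : ℝ) := by
            push_cast; rw [nR, hc]; simp only; push_cast; linarith
          exact_mod_cast this
  have hn0 : (0 : ℝ) < n := by rw [nR]; linarith
  have hr0 : (0 : ℝ) < r := by rw [rR]; linarith
  have e1 : (r : ℝ) / n ≤ 4 * (s / ρ) := by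
    rw [div_le_iff₀ hn0]
    have e2 : 4 * (s / ρ) * n = 4 * ((s / δ) / (ρ / δ)) * n := by
      field_simp
    rw [e2]
    have e3 : (0 : ℝ) < ρ / δ := by positivity
    have e4 : (ρ / δ) / 2 ≤ n := by rw [nR]; linarith
    have e5 : 4 * ((s / δ) / (ρ / δ)) * ((ρ / δ) / 2) = 2 * (s / δ) := by field_simp; ring
    have e6 : 4 * ((s / δ) / (ρ / δ)) * ((ρ / δ) / 2) ≤ 4 * ((s / δ) / (ρ / δ)) * n :=
      mul_le_mul_of_nonneg_left e4 (by positivity)
    rw [rR]
    linarith
  exact ⟨c, r, n, by omega, hrn, e1, hev⟩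

end Pool.Agent.TH966.CF
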