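import Pool.Agent.TH966.CF.Phys
import Pool.Agent.TH966.HD.Abs

/-!
The discrete estimate: with high probability the large clusters are dense near a fixed set.
-/

set_option autoImplicit false
set_option maxHeartbeats 1000000

namespace Pool.Agent.TH966.CF

open H974 H934E Pool.Agent.H160R2.CV MeasureTheory TopologicalSpace Filter Topology Metric Set
open Pool.Agent.H389R2.Dim Pool.Agent.H389R2.CD Pool.Agent.H389R2.CL
open Pool.Agent.H160R2.CV.Quad H362P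
open scoped ENNReal NNReal

/-- The union of the members of diameter at least `η`. -/
def U {X : Type*} [MetricSpace X] (η : ℝ) (𝒞 : NonemptyCompacts (NonemptyCompacts X)) : Set X :=
  {x | ∃ K ∈ 𝒞, η ≤ diam (K : Set X) ∧ x ∈ K}

/-- The discrete estimate. -/
theorem disc_main (hAr : ArS) : ∃ K : ℝ, 0 < K ∧ ∀ (R : Rect) (T : Finset ℂ) (w : ℂ → ℝ)
    (r η δ : ℝ), 0 < r → 16 * r ≤ η → 0 < δ → 16 * δ ≤ r → (∀ x ∈ T, 0 ≤ w x) →
    ∑ x ∈ T, w x = 1 → (∀ x ∈ T, csq x (2 * η) ⊆ R.D) → ∀ t v J1 J2 ε : ℝ, 0 < ε → 0 < J1 →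
    0 ≤ J2 →
    ∑ x ∈ T, ∑ y ∈ T, (if dist x y ≤ 8 * η then
      w x * w y * (max (dist x y) r) ^ (-(5 / 48) : ℝ) else 0) ≤ v →
    ∑ x ∈ T, ∑ y ∈ T, w x * w y * (max (dist x y) r) ^ (-t) ≤ J1 →
    ∑ x ∈ T, ∑ y ∈ T, w x * w y * (max (dist x y) r) ^ (-(5 / 48 + t)) ≤ J2 →
    Pr P (R.edges δ) (fun F => ¬ ∃ T' : Finset ℂ, T' ⊆ T ∧ 0 < ∑ x ∈ T', w x ∧
      (∀ x ∈ T', ∃ a ∈ U (η / 2) (coll R δ F), dist a x ≤ 4 * r) ∧
      ∑ x ∈ T', ∑ y ∈ T', w x * w y * (max (dist x y) r) ^ (-t) ≤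
        4 * (J1 + K * η ^ ((5 : ℝ) / 48) * J2) / ε * (∑ x ∈ T', w x) ^ 2) ≤
      K * η ^ ((5 : ℝ) / 48) * v + ε := by
  obtain ⟨K, hK, h2p⟩ := two_phys hAr
  refine ⟨4 * K, by positivity, ?_⟩
  intro R T w r η δ hr hrη hδ hδr hw hw1 hD t v J1 J2 ε hε hJ1 hJ2 hv h1 h2
  classical
  have hη : 0 < η := by linarith
  have hηp : 0 < η ^ ((5 : ℝ) / 48) := Real.rpow_pos_of_pos hη _
  have hmx : ∀ x y : ℂ, 0 < max (dist x y) r := fun x y => lt_of_lt_of_le hr (le_max_right _ _)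
  set H : ℂ → Finset Edg → Prop := fun z => Ex1 (cx δ z) ⌈r / δ⌉₊ ⌊η / δ⌋₊ with hH
  set q : ℝ := barm (1 / 2) ⌈r / δ⌉₊ ⌊η / δ⌋₊ with hq
  have hsub : ∀ x ∈ T, bo (cx δ x) ⌊η / δ⌋₊ ⊆ R.edges δ := fun x hx =>
    bo_edges hη (hD x hx) hδ (by linarith)
  have hq1 : ∀ x ∈ T, Pr P (R.edges δ) (H x) = q := fun x hx => pr_Ex1_eq (hsub x hx)
  have hm : 1 ≤ ⌈r / δ⌉₊ := by
    rw [Nat.one_le_ceil_iff]
    positivity
  have hmn : ⌈r / δ⌉₊ ≤ ⌊η / δ⌋₊ := by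
    rw [Nat.le_floor_iff (by positivity)]
    have h3 := Nat.ceil_lt_add_one (show 0 ≤ r / δ by positivity)
    have h4 : (16 : ℝ) ≤ r / δ := by rw [le_div_iff₀ hδ]; exact hδr
    have h5 : 16 * (r / δ) ≤ η / δ := by
      rw [← mul_div_assoc]
      exact div_le_div_of_nonneg_right hrη hδ.le
    linarith
  obtain ⟨c, hc, hlo⟩ := barm_ge hAr
  have hq0 : 0 < q := by
    have hm0 : (0 : ℝ) < (⌈r / δ⌉₊ : ℝ) := by exact_mod_cast hm
    have hn0 : (0 : ℝ) < (⌊η / δ⌋₊ : ℝ) := by exact_mod_cast (hm.trans hmn)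
    exact lt_of_lt_of_le (by positivity) (hlo _ _ hm hmn)
  set κ : ℂ → ℂ → ℝ := fun z u =>
    if dist z u ≤ 8 * η then K * (η / max (dist z u) r) ^ ((5 : ℝ) / 48) else 0 with hκ
  have hκ2 : ∀ x y : ℂ, κ x y = K * η ^ ((5 : ℝ) / 48) *
      (if dist x y ≤ 8 * η then (max (dist x y) r) ^ (-(5 / 48) : ℝ) else 0) := by
    intro x y
    rw [hκ]
    simp only
    split_ifs with h3
    · rw [Real.div_rpow hη.le (hmx x y).le, Real.rpow_neg (hmx x y).le]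
      ring
    · rw [mul_zero]
  have hκ3 : ∀ x y : ℂ, κ x y ≤ K * η ^ ((5 : ℝ) / 48) * (max (dist x y) r) ^ (-(5 / 48) : ℝ) := by
    intro x y
    rw [hκ2]
    apply mul_le_mul_of_nonneg_left _ (by positivity)
    split_ifs
    · exact le_rfl
    · exact (Real.rpow_pos_of_pos (hmx x y) _).le
  have hv' : ∑ x ∈ T, ∑ y ∈ T, w x * w y * κ x y ≤ K * η ^ ((5 : ℝ) / 48) * v := by
    refine le_trans (le_of_eq ?_) (mul_le_mul_of_nonneg_left hv (by positivity))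
    rw [Finset.mul_sum]
    refine Finset.sum_congr rfl fun x _ => ?_
    rw [Finset.mul_sum]
    refine Finset.sum_congr rfl fun y _ => ?_
    rw [hκ2]
    split_ifs
    · ring
    · ring
  have hJ' : ∑ x ∈ T, ∑ y ∈ T, w x * w y * ((1 + κ x y) * (max (dist x y) r) ^ (-t)) ≤
      J1 + K * η ^ ((5 : ℝ) / 48) * J2 := by
    have e1 : J1 + K * η ^ ((5 : ℝ) / 48) * J2 ≥
        ∑ x ∈ T, ∑ y ∈ T, w x * w y * (max (dist x y) r) ^ (-t) + K * η ^ ((5 : ℝ) / 48) *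
        ∑ x ∈ T, ∑ y ∈ T, w x * w y * (max (dist x y) r) ^ (-(5 / 48 + t)) :=
      add_le_add h1 (mul_le_mul_of_nonneg_left h2 (by positivity))
    refine le_trans ?_ e1
    rw [Finset.mul_sum, ← Finset.sum_add_distrib]
    refine Finset.sum_le_sum fun x hx => ?_
    rw [Finset.mul_sum, ← Finset.sum_add_distrib]
    refine Finset.sum_le_sum fun y hy => ?_
    have h3 : (max (dist x y) r) ^ (-(5 / 48 + t)) =
        (max (dist x y) r) ^ (-(5 / 48) : ℝ) * (max (dist x y) r) ^ (-t) := by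
      rw [← Real.rpow_add (hmx x y)]
      congr 1
      ring
    have h4 : 0 ≤ w x * w y * (max (dist x y) r) ^ (-t) :=
      mul_nonneg (mul_nonneg (hw x hx) (hw y hy)) (Real.rpow_nonneg (hmx x y).le _)
    have h5 := mul_le_mul_of_nonneg_left (hκ3 x y) h4
    rw [h3]
    linarith
  have hconc := conc Quad.okP (S := R.edges δ) T w hw hw1 H hq0 hq1 κ
    (fun x _ y _ => h2p (R.edges δ) x y r η δ hr hrη hδ hδr) hv'
    (fun x y => (max (dist x y) r) ^ (-t)) (fun x y => Real.rpow_nonneg (hmx x y).le _)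
    (J := J1 + 4 * K * η ^ ((5 : ℝ) / 48) * J2) (by positivity) (hJ'.trans (by
      have : 0 ≤ K * η ^ ((5 : ℝ) / 48) * J2 := by positivity
      linarith)) hε
  refine (Pr_mono w_ok ?_).trans (hconc.trans (le_of_eq (by ring)))
  intro F hF hnot hcon
  apply hnot
  obtain ⟨h3, h4⟩ := hcon
  set T' : Finset ℂ := T.filter (fun x => H x F) with hT'
  have eZ : ∑ x ∈ T, w x * ind (H x F) = ∑ x ∈ T', w x := by
    rw [hT', Finset.sum_filter]
    refine Finset.sum_congr rfl fun x _ => ?_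
    by_cases hx : H x F
    · rw [if_pos hx, ind_of hx, mul_one]
    · rw [if_neg hx, ind_not_of hx, mul_zero]
  have eV : ∑ x ∈ T, ∑ y ∈ T, w x * w y * (max (dist x y) r) ^ (-t) * ind (H x F ∧ H y F) =
      ∑ x ∈ T', ∑ y ∈ T', w x * w y * (max (dist x y) r) ^ (-t) := by
    rw [hT', Finset.sum_filter]
    refine Finset.sum_congr rfl fun x _ => ?_
    by_cases hx : H x F
    · rw [if_pos hx, Finset.sum_filter]
      refine Finset.sum_congr rfl fun y _ => ?_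
      by_cases hy : H y F
      · rw [if_pos hy, ind_of ⟨hx, hy⟩, mul_one]
      · rw [if_neg hy, ind_not_of (fun h => hy h.2), mul_zero]
    · rw [if_neg hx]
      refine Finset.sum_eq_zero fun y _ => ?_
      rw [ind_not_of (fun h => hx h.1), mul_zero]
  rw [eZ] at h3
  rw [eV] at h4
  refine ⟨T', Finset.filter_subset _ _, lt_of_lt_of_le (by positivity) h3, ?_, ?_⟩
  · intro x hx
    rw [hT', Finset.mem_filter] at hx
    obtain ⟨L, hL, hd, a, ha, hax⟩ := det hr hrη hδ hδr hF hx.2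
    exact ⟨a, ⟨L, hL, hd, ha⟩, hax⟩
  · refine h4.trans ?_
    have h5 : (q / 2) ^ 2 ≤ (∑ x ∈ T', w x) ^ 2 := pow_le_pow_left₀ (by positivity) h3 2
    calc q ^ 2 * (J1 + 4 * K * η ^ ((5 : ℝ) / 48) * J2) / ε
        = 4 * (J1 + 4 * K * η ^ ((5 : ℝ) / 48) * J2) / ε * (q / 2) ^ 2 := by ring
      _ ≤ _ := mul_le_mul_of_nonneg_left h5 (by positivity)

/-- The discrete estimate, for the contents of the large clusters near `S`. -/
theorem disc_good (hAr : ArS) : ∃ K : ℝ, 0 < K ∧ ∀ (R : Rect) (T : Finset ℂ) (w : ℂ → ℝ)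
    (S : Set ℂ) (r η δ : ℝ), (∀ x ∈ T, x ∈ S) → 0 < r → 16 * r ≤ η → 0 < δ → 16 * δ ≤ r →
    (∀ x ∈ T, 0 ≤ w x) → ∑ x ∈ T, w x = 1 → (∀ x ∈ T, csq x (2 * η) ⊆ R.D) →
    ∀ t v J1 J2 ε : ℝ, 0 ≤ t → 0 < ε → 0 < J1 → 0 ≤ J2 →
    ∑ x ∈ T, ∑ y ∈ T, (if dist x y ≤ 8 * η then
      w x * w y * (max (dist x y) r) ^ (-(5 / 48) : ℝ) else 0) ≤ v →
    ∑ x ∈ T, ∑ y ∈ T, w x * w y * (max (dist x y) r) ^ (-t) ≤ J1 →
    ∑ x ∈ T, ∑ y ∈ T, w x * w y * (max (dist x y) r) ^ (-(5 / 48 + t)) ≤ J2 →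
    Pr P (R.edges δ) (fun F => ¬ Good t (4 * r)
      (4 ^ (-t) / (4 * (J1 + K * η ^ ((5 : ℝ) / 48) * J2) / ε))
      (U (η / 2) (coll R δ F) ∩ cthickening (4 * r) S)) ≤ K * η ^ ((5 : ℝ) / 48) * v + ε := by
  obtain ⟨K, hK, h⟩ := disc_main hAr
  refine ⟨K, hK, ?_⟩
  intro R T w S r η δ hTS hr hrη hδ hδr hw hw1 hD t v J1 J2 ε ht hε hJ1 hJ2 hv h1 h2
  have hη : 0 < η := by linarith
  refine (Pr_mono w_ok ?_).trans (h R T w r η δ hr hrη hδ hδr hw hw1 hD t v J1 J2 ε hε hJ1 hJ2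
    hv h1 h2)
  rintro F _ hnot ⟨T', hT', hpos, hnear, hen⟩
  apply hnot
  have hE : 0 < 4 * (J1 + K * η ^ ((5 : ℝ) / 48) * J2) / ε := by positivity
  refine HD.good_of_wenergy (by positivity) ht hE T' w (fun x hx => hw x (hT' hx)) hpos ?_ ?_
  · intro x hx
    obtain ⟨a, ha, hax⟩ := hnear x hx
    exact ⟨a, ⟨ha, mem_cthickening_of_dist_le a x (4 * r) S (hTS x (hT' hx)) hax⟩, hax⟩
  · refine le_trans ?_ hen
    refine Finset.sum_le_sum fun x hx => Finset.sum_le_sum fun y hy => ?_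
    apply mul_le_mul_of_nonneg_left _ (mul_nonneg (hw x (hT' hx)) (hw y (hT' hy)))
    apply Real.rpow_le_rpow_of_nonpos (lt_of_lt_of_le hr (le_max_right _ _)) _ (by linarith)
    exact max_le_max_left _ (by linarith)

end Pool.Agent.TH966.CF
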