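import Pool.Agent.TH966.CF.FS

/-!
Intersections of a random set with a fixed subset of an open set.
-/

set_option autoImplicit false

namespace Pool.Agent.TH966.CF

open MeasureTheory Metric Set Filter Topology
open scoped ENNReal NNReal

/-- Points at distance at least `1 / (n + 1)` from the complement. -/
def inn (D : Set ℂ) (n : ℕ) : Set ℂ := {z | Metric.ball z (1 / ((n : ℝ) + 1)) ⊆ D}

theorem iUnion_inn {D : Set ℂ} (hD : IsOpen D) {A : Set ℂ} (hA : A ⊆ D) :
    A = ⋃ n, (A ∩ inn D n) := by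
  ext z
  rw [Set.mem_iUnion]
  constructor
  · intro hz
    obtain ⟨e, he, hb⟩ := Metric.isOpen_iff.mp hD z (hA hz)
    obtain ⟨n, hn⟩ := exists_nat_one_div_lt he
    exact ⟨n, hz, (Metric.ball_subset_ball hn.le).trans hb⟩
  · rintro ⟨n, h, -⟩
    exact h

/-- A random set with small hitting probabilities and a fixed set. -/
theorem dim_inter {Ω : Type*} [MeasurableSpace Ω] {μ : Measure Ω} {K : Ω → Set ℂ} {α : ℝ}
    (hα : 0 < α) {A D : Set ℂ} (hD : IsOpen D) (hA : A ⊆ D)
    (hm : ∀ z r, MeasurableSet (Hit K z r))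
    (hb : ∀ n : ℕ, ∃ (C : ℝ≥0∞) (r0 : ℝ), C ≠ ∞ ∧ 0 < r0 ∧ ∀ z ∈ A ∩ inn D n, ∀ r : ℝ, 0 < r →
      r ≤ r0 → μ (Hit K z r) ≤ C * ENNReal.ofReal r ^ α) :
    ∀ᵐ ω ∂μ, dimH (K ω ∩ A) ≤ dimH A - ENNReal.ofReal α ∧ (μH[α] A = 0 → K ω ∩ A = ∅) := by
  have h1 : ∀ᵐ ω ∂μ, ∀ (n : ℕ) (s : ℚ), α < (s : ℝ) → dimH A < ENNReal.ofReal s →
        μH[(s : ℝ) - α] (K ω ∩ (A ∩ inn D n)) = 0 := by
    rw [ae_all_iff]
    intro n
    rw [ae_all_iff]
    intro s
    obtain ⟨C, r0, hC, hr0, hb'⟩ := hb n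
    by_cases h3 : α < (s : ℝ)
    · by_cases h4 : dimH A < ENNReal.ofReal s
      · have h5 : μH[(s : ℝ)] (A ∩ inn D n) = 0 := by
          have h6 : dimH (A ∩ inn D n) < ((Real.toNNReal s : ℝ≥0) : ℝ≥0∞) :=
            (dimH_mono Set.inter_subset_left).trans_lt h4
          have h7 := hausdorffMeasure_of_dimH_lt h6
          rwa [Real.coe_toNNReal _ (by linarith)] at h7
        filter_upwards [inter_zero hα hr0 hC hm hb' h3 h5] with ω hω
        intro _ _
        exact hω
      · exact Eventually.of_forall fun K _ h => absurd h h4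
    · exact Eventually.of_forall fun K h => absurd h h3
  have h2 : ∀ᵐ ω ∂μ, ∀ n : ℕ, μH[α] A = 0 → K ω ∩ (A ∩ inn D n) = ∅ := by
    rw [ae_all_iff]
    intro n
    obtain ⟨C, r0, hC, hr0, hb'⟩ := hb n
    by_cases h4 : μH[α] A = 0
    · have h5 : μH[α] (A ∩ inn D n) = 0 := measure_mono_null Set.inter_subset_left h4
      filter_upwards [polar hα hr0 hC hb' h5] with ω hω
      intro _
      exact hω
    · exact Eventually.of_forall fun K h => absurd h h4
  filter_upwards [h1, h2] with ω k1 k2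
  have hAU := iUnion_inn hD hA
  have hpol : μH[α] A = 0 → K ω ∩ A = ∅ := by
    intro h
    rw [hAU, Set.inter_iUnion]
    exact Set.iUnion_eq_empty.mpr fun n => k2 n h
  refine ⟨?_, hpol⟩
  rcases lt_or_ge (dimH A) (ENNReal.ofReal α) with h | h
  · have h0 : μH[α] A = 0 := by
      have h7 := hausdorffMeasure_of_dimH_lt (d := Real.toNNReal α) h
      rwa [Real.coe_toNNReal _ hα.le] at h7
    rw [hpol h0, dimH_empty]
    exact zero_le
  · apply ENNReal.le_sub_of_add_le_right ENNReal.ofReal_ne_top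
    apply le_of_forall_gt_imp_ge_of_dense
    intro x hx
    obtain ⟨q, -, hq1, hq2⟩ := ENNReal.lt_iff_exists_rat_btwn.mp hx
    have hq4 : α < (q : ℝ) := by
      by_contra hcon
      have h5 : ((Real.toNNReal q : ℝ≥0) : ℝ≥0∞) ≤ ENNReal.ofReal α :=
        ENNReal.ofReal_le_ofReal (not_lt.mp hcon)
      exact absurd (hq1.trans_le h5) (not_lt.mpr h)
    have hsub : dimH (K ω ∩ A) ≤ ENNReal.ofReal ((q : ℝ) - α) := by
      rw [hAU, Set.inter_iUnion, dimH_iUnion]
      apply iSup_le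
      intro n
      have h6 := k1 n q hq4 hq1
      apply dimH_le_of_hausdorffMeasure_ne_top (d := Real.toNNReal ((q : ℝ) - α))
      rw [Real.coe_toNNReal _ (by linarith), h6]
      exact ENNReal.zero_ne_top
    calc dimH (K ω ∩ A) + ENNReal.ofReal α ≤ ENNReal.ofReal ((q : ℝ) - α) + ENNReal.ofReal α := by
          gcongr
      _ = ENNReal.ofReal q := by
          rw [← ENNReal.ofReal_add (by linarith) hα.le]
          congr 1
          ring
      _ ≤ x := hq2.le

end Pool.Agent.TH966.CF
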