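import Pool.Agent.TH966.HD.Energy

/-!
Local energies: discretisation, and convergence to zero.
-/

set_option autoImplicit false

namespace Pool.Agent.TH966.CF

open MeasureTheory Filter Topology Metric Set Pool.Agent.TH966.HD
open scoped ENNReal NNReal

/-- The energy of the pairs at distance at most `L`. -/
noncomputable def locE (β L : ℝ) (ν : Measure ℂ) : ℝ≥0∞ :=
  ∫⁻ x, ∫⁻ y, (if dist x y ≤ L then (edist x y) ^ (-β) else 0) ∂ν ∂ν

theorem locE_le (β L : ℝ) (ν : Measure ℂ) : locE β L ν ≤ energy β ν := by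
  unfold locE energy
  refine lintegral_mono fun x => lintegral_mono fun y => ?_
  dsimp only
  split_ifs
  · exact le_rfl
  · exact zero_le

/-- Discretisation of a probability measure on a compact set. -/
theorem disc_loc {S : Set ℂ}
    (hS : IsCompact S) {ν : Measure ℂ} [IsProbabilityMeasure ν] (hν : ν Sᶜ = 0) {r : ℝ}
    (hr : 0 < r) : ∃ (T : Finset ℂ) (w : ℂ → ℝ), (∀ x ∈ T, x ∈ S) ∧ (∀ x ∈ T, 0 ≤ w x) ∧
      ∑ x ∈ T, w x = 1 ∧ ∀ β L : ℝ, 0 ≤ β → energy β ν ≠ ⊤ →
        ∑ x ∈ T, ∑ y ∈ T, (if dist x y ≤ L then w x * w y * (max (dist x y) r) ^ (-β) else 0) ≤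
          3 ^ β * (locE β (L + 2 * r) ν).toReal := by
  classical
  obtain ⟨t, htS, htf, hcov⟩ := hS.finite_cover_balls hr
  have hSne : S.Nonempty := by
    by_contra hcon
    rw [Set.not_nonempty_iff_eq_empty] at hcon
    rw [hcon, Set.compl_empty, measure_univ] at hν
    exact one_ne_zero hν
  have htne : t.Nonempty := by
    obtain ⟨x, hx⟩ := hSne
    obtain ⟨y, hy, -⟩ := Set.mem_iUnion₂.mp (hcov hx)
    exact ⟨y, hy⟩
  obtain ⟨y0, hy0⟩ := htne
  obtain ⟨e, N, het, hes⟩ : ∃ (e : ℕ → ℂ) (N : ℕ), (∀ n, e n ∈ t) ∧ ∀ x ∈ t, ∃ k ≤ N, e k = x := by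
    obtain ⟨n, f, hf⟩ := htf.fin_embedding
    refine ⟨fun k => if h : k < n then f ⟨k, h⟩ else y0, n, fun k => ?_, fun x hx => ?_⟩
    · simp only
      split_ifs with h
      · rw [← hf]; exact ⟨_, rfl⟩
      · exact hy0
    · rw [← hf] at hx
      obtain ⟨k, rfl⟩ := hx
      exact ⟨k, k.2.le, by simp⟩
  set g := SimpleFunc.nearestPt e N with hg
  have hgt : ∀ x, g x ∈ t := by
    intro x
    have : g x = e (SimpleFunc.nearestPtInd e N x) := rfl
    rw [this]
    exact het _
  have hgd : ∀ x ∈ S, dist (g x) x ≤ r := by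
    intro x hx
    obtain ⟨y, hy, hxy⟩ := Set.mem_iUnion₂.mp (hcov hx)
    obtain ⟨k, hk, rfl⟩ := hes y hy
    have h1 := SimpleFunc.edist_nearestPt_le e x hk
    rw [edist_dist, edist_dist] at h1
    have h2 := (ENNReal.ofReal_le_ofReal_iff dist_nonneg).mp h1
    rw [mem_ball, dist_comm] at hxy
    exact h2.trans hxy.le
  refine ⟨g.range, fun x => ν.real (g ⁻¹' {x}), ?_, fun _ _ => measureReal_nonneg, ?_, ?_⟩
  · intro x hx
    obtain ⟨y, rfl⟩ := SimpleFunc.mem_range.mp hx
    exact htS (hgt y)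
  · have h1 := SimpleFunc.sum_range_measure_preimage_singleton g ν
    rw [measure_univ] at h1
    have h2 := congrArg ENNReal.toReal h1
    rw [ENNReal.toReal_sum (fun _ _ => measure_ne_top _ _)] at h2
    simpa [Measure.real] using h2
  · intro β L hβ hfin
    have hk0 : ∀ x y : ℂ, 0 < max (dist x y) r := fun x y => lt_of_lt_of_le hr (le_max_right _ _)
    have hone : ∀ φ : ℂ → ℝ≥0∞, ∑ x ∈ g.range, φ x * ν (g ⁻¹' {x}) = ∫⁻ x, φ (g x) ∂ν := by
      intro φ
      rw [← SimpleFunc.map_lintegral, ← SimpleFunc.lintegral_eq_lintegral]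
      rfl
    have hif : ∀ x y : ℂ, 0 ≤ (if dist x y ≤ L then ν.real (g ⁻¹' {x}) * ν.real (g ⁻¹' {y}) *
        (max (dist x y) r) ^ (-β) else 0) := by
      intro x y
      have := Real.rpow_nonneg (hk0 x y).le (-β)
      split_ifs
      · positivity
      · exact le_rfl
    have h1 : ENNReal.ofReal (∑ x ∈ g.range, ∑ y ∈ g.range,
        (if dist x y ≤ L then ν.real (g ⁻¹' {x}) * ν.real (g ⁻¹' {y}) *
          (max (dist x y) r) ^ (-β) else 0)) =
        ∫⁻ x, ∫⁻ y, (if dist (g x) (g y) ≤ L then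
          ENNReal.ofReal ((max (dist (g x) (g y)) r) ^ (-β)) else 0) ∂ν ∂ν := by
      rw [ENNReal.ofReal_sum_of_nonneg (fun x _ => Finset.sum_nonneg fun y _ => hif x y)]
      rw [← hone (fun a => ∫⁻ y, (if dist a (g y) ≤ L then
          ENNReal.ofReal ((max (dist a (g y)) r) ^ (-β)) else 0) ∂ν)]
      refine Finset.sum_congr rfl fun x _ => ?_
      rw [ENNReal.ofReal_sum_of_nonneg (fun y _ => hif x y)]
      rw [← hone (fun b => (if dist x b ≤ L then ENNReal.ofReal ((max (dist x b) r) ^ (-β)) else 0)),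
        Finset.sum_mul]
      refine Finset.sum_congr rfl fun y _ => ?_
      split_ifs
      · rw [ENNReal.ofReal_mul (by positivity), ENNReal.ofReal_mul measureReal_nonneg,
          ofReal_measureReal, ofReal_measureReal]
        ring
      · rw [ENNReal.ofReal_zero, zero_mul, zero_mul]
    have hae : ∀ᵐ x ∂ν, x ∈ S := by
      rw [ae_iff]
      exact hν
    have h2 : ∫⁻ x, ∫⁻ y, (if dist (g x) (g y) ≤ L then
          ENNReal.ofReal ((max (dist (g x) (g y)) r) ^ (-β)) else 0) ∂ν ∂ν ≤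
        3 ^ β * locE β (L + 2 * r) ν := by
      unfold locE
      rw [← lintegral_const_mul' _ _ (ENNReal.rpow_ne_top_of_nonneg hβ (by norm_num))]
      refine lintegral_mono_ae ?_
      filter_upwards [hae] with x hx
      rw [← lintegral_const_mul' _ _ (ENNReal.rpow_ne_top_of_nonneg hβ (by norm_num))]
      refine lintegral_mono_ae ?_
      filter_upwards [hae] with y hy
      have h3 := dist_triangle4 x (g x) (g y) y
      have h4 := hgd x hx
      have h5 := hgd y hy
      rw [dist_comm] at h4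
      have h6 := le_max_left (dist (g x) (g y)) r
      have h7 := le_max_right (dist (g x) (g y)) r
      by_cases hL : dist (g x) (g y) ≤ L
      · rw [if_pos hL, if_pos (by linarith), ← ENNReal.ofReal_rpow_of_pos (hk0 _ _)]
        apply pow_neg_le hβ
        rw [edist_dist, show (3:ℝ≥0∞) = ENNReal.ofReal 3 by norm_num,
          ← ENNReal.ofReal_mul (by norm_num)]
        apply ENNReal.ofReal_le_ofReal
        linarith
      · rw [if_neg hL]
        exact zero_le
    have hfin2 : locE β (L + 2 * r) ν ≠ ⊤ := ne_top_of_le_ne_top hfin (locE_le _ _ _)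
    rw [← ENNReal.ofReal_le_ofReal_iff (by positivity), h1]
    refine h2.trans (le_of_eq ?_)
    rw [ENNReal.ofReal_mul (by positivity), ENNReal.ofReal_toReal hfin2,
      ← ENNReal.ofReal_rpow_of_pos (by norm_num)]
    norm_num

/-- Local energies are small. -/
theorem locE_small {ν : Measure ℂ} [IsProbabilityMeasure ν] {β : ℝ} (hβ : 0 < β)
    (h : energy β ν ≠ ⊤) {ε : ℝ≥0∞} (hε : 0 < ε) : ∃ L : ℝ, 0 < L ∧ locE β L ν < ε := by
  have hc : Measurable (fun p : ℂ × ℂ => (edist p.1 p.2) ^ (-β)) :=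
    (measurable_edist).pow_const _
  set m : Measure (ℂ × ℂ) := (ν.prod ν).withDensity (fun p => (edist p.1 p.2) ^ (-β)) with hm
  set A : ℕ → Set (ℂ × ℂ) := fun n => {p | dist p.1 p.2 ≤ 1 / ((n : ℝ) + 1)} with hA
  have hAm : ∀ n, MeasurableSet (A n) := fun n =>
    (isClosed_le continuous_dist continuous_const).measurableSet
  have hmA : ∀ n, m (A n) = locE β (1 / ((n : ℝ) + 1)) ν := by
    intro n
    rw [hm, withDensity_apply _ (hAm n), ← lintegral_indicator (hAm n),
      lintegral_prod _ (hc.indicator (hAm n)).aemeasurable]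
    unfold locE
    refine lintegral_congr fun x => lintegral_congr fun y => ?_
    by_cases hxy : dist x y ≤ 1 / ((n : ℝ) + 1)
    · rw [Set.indicator_of_mem (show (x, y) ∈ A n from hxy), if_pos hxy]
    · rw [Set.indicator_of_notMem (show (x, y) ∉ A n from hxy), if_neg hxy]
  have hen : energy β ν = ∫⁻ p, (edist p.1 p.2) ^ (-β) ∂(ν.prod ν) := by
    unfold energy
    rw [lintegral_prod _ hc.aemeasurable]
  have hdiag0 : (ν.prod ν) {p : ℂ × ℂ | p.1 = p.2} = 0 := by
    have h1 : ∀ᵐ p ∂(ν.prod ν), (edist p.1 p.2) ^ (-β) < ⊤ :=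
      ae_lt_top hc (by rw [← hen]; exact h)
    rw [ae_iff] at h1
    refine measure_mono_null ?_ h1
    intro p hp
    have hp' : p.1 = p.2 := hp
    show ¬ (edist p.1 p.2) ^ (-β) < ⊤
    rw [hp', edist_self, ENNReal.zero_rpow_of_neg (by linarith)]
    exact lt_irrefl _
  have hdiag : m (⋂ n, A n) = 0 := by
    have h1 : (⋂ n, A n) ⊆ {p : ℂ × ℂ | p.1 = p.2} := by
      intro p hp
      rw [Set.mem_iInter] at hp
      have h2 : dist p.1 p.2 ≤ 0 :=
        ge_of_tendsto' (tendsto_one_div_add_atTop_nhds_zero_nat (𝕜 := ℝ)) hp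
      exact dist_le_zero.mp h2
    exact withDensity_absolutelyContinuous _ _ (measure_mono_null h1 hdiag0)
  have hanti : Antitone A := by
    intro a b hab p hp
    have hp' : dist p.1 p.2 ≤ 1 / ((b : ℝ) + 1) := hp
    exact hp'.trans (Nat.one_div_le_one_div hab)
  have hlim := tendsto_measure_iInter_atTop (μ := m) (fun n => (hAm n).nullMeasurableSet) hanti
    ⟨0, by
      rw [hmA]
      exact ne_top_of_le_ne_top h (locE_le _ _ _)⟩
  rw [hdiag] at hlim
  obtain ⟨n, hn⟩ := (hlim.eventually_lt_const hε).exists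
  rw [Function.comp_apply, hmA] at hn
  exact ⟨1 / ((n : ℝ) + 1), by positivity, hn⟩

theorem locE_mono {β L L' : ℝ} (h : L ≤ L') (ν : Measure ℂ) : locE β L ν ≤ locE β L' ν := by
  unfold locE
  refine lintegral_mono fun x => lintegral_mono fun y => ?_
  dsimp only
  by_cases h1 : dist x y ≤ L
  · rw [if_pos h1, if_pos (h1.trans h)]
  · rw [if_neg h1]
    exact zero_le

end Pool.Agent.TH966.CF
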