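import Pool.Agent.TH966.CF.Count
import Pool.Agent.TH966.CF.Loc

/-!
Clusters and fixed sets: final statements.
-/

set_option autoImplicit false
set_option maxHeartbeats 1000000

namespace Pool.Agent.TH966.CF

open H974 H934E Pool.Agent.H160R2.CV MeasureTheory TopologicalSpace Filter Topology Metric Set
open Pool.Agent.H389R2.Dim Pool.Agent.H389R2.CD Pool.Agent.H389R2.CL
open scoped ENNReal NNReal

theorem good_nonempty {δ c : ℝ} (hc : 0 < c) {A : Set ℂ} (h : Good 0 δ c A) : A.Nonempty := by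
  by_contra hcon
  rw [Set.not_nonempty_iff_eq_empty] at hcon
  have := h ∅ (by simp) (by rw [hcon]; exact Set.empty_subset _)
  simp only [Finset.sum_empty] at this
  linarith

section

variable (hAr : ArS) (R : Rect) {δ : ℕ → ℝ} (hδ : ∀ i, 0 < δ i) (hlim : Tendsto δ atTop (𝓝 0))
  {μ : ProbabilityMeasure (NonemptyCompacts (NonemptyCompacts ℂ))}
  (hμ : Tendsto (fun i => collLaw R (δ i)) atTop (𝓝 μ))

include hAr hδ hlim hμ

/-- The large clusters meet a set of positive capacity with high probability. -/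
theorem U_hit {S : Set ℂ} (hS : IsCompact S) (hSD : S ⊆ R.D) {ν : Measure ℂ}
    [IsProbabilityMeasure ν] (hν0 : ν Sᶜ = 0) (he : HD.energy (5 / 48) ν ≠ ⊤) {ε : ℝ}
    (hε : 0 < ε) :
    ∃ η : ℝ, 0 < η ∧ (μ : Measure (NonemptyCompacts (NonemptyCompacts ℂ)))
      {𝒞 | ¬ (U η 𝒞 ∩ S).Nonempty} ≤ ENNReal.ofReal ε := by
  obtain ⟨K, hK, hdisc⟩ := disc_good hAr
  obtain ⟨η0, hη0, hroom⟩ := room hS hSD
  obtain ⟨L, hL, hLs⟩ := locE_small (β := 5 / 48) (by norm_num) he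
    (show (0 : ℝ≥0∞) < ENNReal.ofReal (ε / (4 * K)) by
      rw [ENNReal.ofReal_pos]; positivity)
  obtain ⟨η, hηd⟩ : ∃ η : ℝ, η = min (min η0 1) (L / 10) := ⟨_, rfl⟩
  have hη : 0 < η := by rw [hηd]; positivity
  have hηη : η ≤ η0 := by rw [hηd]; exact (min_le_left _ _).trans (min_le_left _ _)
  have hη1 : η ≤ 1 := by rw [hηd]; exact (min_le_left _ _).trans (min_le_right _ _)
  have hηL : η ≤ L / 10 := by rw [hηd]; exact min_le_right _ _
  obtain ⟨v, hv⟩ : ∃ v : ℝ, v = 3 ^ (5 / 48 : ℝ) * (locE (5 / 48) L ν).toReal := ⟨_, rfl⟩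
  have hv0 : 0 ≤ v := by rw [hv]; positivity
  have hlt : locE (5 / 48) L ν ≠ ⊤ := ne_top_of_le_ne_top he (locE_le _ _ _)
  have hloc : (locE (5 / 48) L ν).toReal ≤ ε / (4 * K) := by
    have := ENNReal.toReal_mono ENNReal.ofReal_ne_top hLs.le
    rwa [ENNReal.toReal_ofReal (by positivity)] at this
  have hKv : K * η ^ ((5 : ℝ) / 48) * v ≤ 3 * (ε / 4) := by
    have h1 : η ^ ((5 : ℝ) / 48) ≤ 1 := Real.rpow_le_one hη.le hη1 (by norm_num)
    have h2 : (3 : ℝ) ^ (5 / 48 : ℝ) ≤ 3 := by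
      calc (3 : ℝ) ^ (5 / 48 : ℝ) ≤ 3 ^ (1 : ℝ) :=
            Real.rpow_le_rpow_of_exponent_le (by norm_num) (by norm_num)
        _ = 3 := Real.rpow_one _
    have h3 : v ≤ 3 * (ε / (4 * K)) := by
      rw [hv]
      exact mul_le_mul h2 hloc ENNReal.toReal_nonneg (by norm_num)
    calc K * η ^ ((5 : ℝ) / 48) * v ≤ K * 1 * (3 * (ε / (4 * K))) :=
          mul_le_mul (mul_le_mul_of_nonneg_left h1 hK.le) h3 hv0 (by positivity)
      _ = 3 * (ε / 4) := by field_simp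
  refine ⟨η / 2, by positivity, ?_⟩
  obtain ⟨J2, hJ2⟩ : ∃ J2 : ℝ, J2 = 3 ^ (5 / 48 : ℝ) * (HD.energy (5 / 48) ν).toReal := ⟨_, rfl⟩
  have hJ2p : 0 ≤ J2 := by rw [hJ2]; positivity
  obtain ⟨c, hc⟩ : ∃ c : ℝ, c = 4 ^ (-(0 : ℝ)) / (4 * (1 + K * η ^ ((5 : ℝ) / 48) * J2) / (ε / 4)) :=
    ⟨_, rfl⟩
  have hc0 : 0 < c := by rw [hc]; positivity
  obtain ⟨ρ, hρ⟩ : ∃ ρ : ℕ → ℝ, ρ = fun n : ℕ => η / 16 / ((n : ℝ) + 1) := ⟨_, rfl⟩
  have hρ0 : ∀ n, 0 < ρ n := fun n => by rw [hρ]; positivity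
  have hρ1 : ∀ n, ρ n ≤ η / 16 := fun n => by
    rw [hρ]
    apply div_le_self (by positivity)
    have : (0:ℝ) ≤ n := Nat.cast_nonneg n
    linarith
  have key : ∀ n, (μ : Measure (NonemptyCompacts (NonemptyCompacts ℂ)))
      {𝒞 | ¬ Good 0 (4 * ρ n) c (U (η / 2) 𝒞 ∩ cthickening (4 * ρ n) S)} ≤ ENNReal.ofReal ε := by
    intro n
    have hr := hρ0 n
    have hr1 := hρ1 n
    obtain ⟨T, w, hTS, hw, hw1, hb⟩ := disc_loc hS hν0 hr
    have b1 := hb (5 / 48) (8 * η) (by norm_num) he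
    have b2 : ∑ x ∈ T, ∑ y ∈ T, w x * w y * (max (dist x y) (ρ n)) ^ (-(5 / 48 + 0) : ℝ) ≤ J2 := by
      obtain ⟨B, hB⟩ := Metric.isBounded_iff.mp hS.isBounded
      have b3 := hb (5 / 48) B (by norm_num) he
      rw [add_zero, hJ2]
      refine le_trans (le_of_eq ?_) (b3.trans ?_)
      · refine Finset.sum_congr rfl fun x hx => Finset.sum_congr rfl fun y hy => ?_
        rw [if_pos (hB (hTS x hx) (hTS y hy))]
      · apply mul_le_mul_of_nonneg_left _ (by positivity)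
        exact ENNReal.toReal_mono he (locE_le _ _ _)
    refine lim_good R hδ hlim hμ hr (q := ε) (t := 0) (c := c) (η := η) (S := S) ?_
    intro δ' hδ' hδr
    refine (Pr_mono w_ok (fun F _ h => ?_)).trans ((hdisc R T w S (ρ n) η δ' hTS hr
      (by linarith) hδ' hδr hw hw1 (fun x hx => ?_) 0 v 1 J2 (ε / 4) le_rfl
      (by positivity) one_pos hJ2p ?_ ?_ b2).trans ?_)
    · rw [← hc]; exact h
    · refine Set.Subset.trans ?_ (hroom x (hTS x hx))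
      rintro y ⟨h1, h2⟩
      exact ⟨h1.trans (by linarith), h2.trans (by linarith)⟩
    · refine b1.trans ?_
      rw [hv]
      apply mul_le_mul_of_nonneg_left _ (by positivity)
      apply ENNReal.toReal_mono hlt
      apply locE_mono
      linarith
    · simp only [neg_zero, Real.rpow_zero, mul_one]
      rw [← Finset.sum_mul_sum, hw1, one_mul]
    · linarith
  refine le_trans (measure_mono ?_) (liminf_meas key)
  intro 𝒞 h𝒞
  by_contra hcon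
  apply h𝒞
  have hfr : ∃ᶠ n in atTop, Good 0 (4 * ρ n) c (U (η / 2) 𝒞 ∩ cthickening (4 * ρ n) S) := by
    intro hev
    exact hcon hev
  have hlimρ : Tendsto (fun n => 4 * ρ n) atTop (𝓝 0) := by
    rw [hρ]
    have := (tendsto_one_div_add_atTop_nhds_zero_nat (𝕜 := ℝ)).const_mul (4 * (η / 16))
    rw [mul_zero] at this
    refine this.congr fun n => ?_
    ring
  by_contra hne
  rw [Set.not_nonempty_iff_eq_empty] at hne
  obtain ⟨ε', hε', hcov2⟩ := HD.cover_eventually (U_compact (η / 2) 𝒞) hS isOpen_empty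
    (by rw [hne])
  obtain ⟨n, hn1, hn2⟩ := (hfr.and_eventually (hlimρ.eventually_lt_const hε')).exists
  exact (good_nonempty hc0 hn1).ne_empty (Set.subset_empty_iff.mp (hcov2 (4 * ρ n) hn2.le))

/-- A set of positive capacity is hit, almost surely. -/
theorem hit_ae {S : Set ℂ} (hS : IsCompact S) (hSD : S ⊆ R.D) {ν : Measure ℂ}
    [IsProbabilityMeasure ν] (hν0 : ν Sᶜ = 0) (he : HD.energy (5 / 48) ν ≠ ⊤) :
    ∀ᵐ 𝒞 : NonemptyCompacts (NonemptyCompacts ℂ)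
      ∂(μ : Measure (NonemptyCompacts (NonemptyCompacts ℂ))),
      ∃ K ∈ 𝒞, (K : Set ℂ).Nontrivial ∧ ((K : Set ℂ) ∩ S).Nonempty := by
  rw [ae_iff, ← nonpos_iff_eq_zero]
  apply ENNReal.le_of_forall_pos_le_add
  intro ε hε _
  rw [zero_add]
  obtain ⟨η, hη, h⟩ := U_hit hAr R hδ hlim hμ hS hSD hν0 he (ε := (ε : ℝ)) (by exact_mod_cast hε)
  rw [ENNReal.ofReal_coe_nnreal] at h
  refine (measure_mono ?_).trans h
  rintro 𝒞 h𝒞 ⟨x, ⟨K, hK, hd, hx⟩, hxS⟩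
  apply h𝒞
  refine ⟨K, hK, ?_, x, hx, hxS⟩
  by_contra hcon
  rw [Set.not_nontrivial_iff] at hcon
  rw [diam_subsingleton hcon] at hd
  linarith

/-- The dimension of the intersections of a compact set with the clusters, lower bound. -/
theorem lower_ae {S : Set ℂ} (hS : IsCompact S) (hSD : S ⊆ R.D) :
    ∀ᵐ 𝒞 : NonemptyCompacts (NonemptyCompacts ℂ)
      ∂(μ : Measure (NonemptyCompacts (NonemptyCompacts ℂ))),
      dimH S - ENNReal.ofReal (5 / 48) ≤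
        ⨆ K ∈ {K : NonemptyCompacts ℂ | K ∈ 𝒞 ∧ (K : Set ℂ).Nontrivial}, dimH ((K : Set ℂ) ∩ S) := by
  have key : ∀ t : ℚ, ∀ᵐ 𝒞 : NonemptyCompacts (NonemptyCompacts ℂ)
      ∂(μ : Measure (NonemptyCompacts (NonemptyCompacts ℂ))),
      0 < (t : ℝ) → ENNReal.ofReal ((t : ℝ) + 5 / 48) < dimH S →
        ∃ η : ℝ, 0 < η ∧ ENNReal.ofReal t ≤ dimH (U η 𝒞 ∩ S) := by
    intro t
    by_cases h1 : 0 < (t : ℝ) ∧ ENNReal.ofReal ((t : ℝ) + 5 / 48) < dimH S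
    · obtain ⟨h1, h2⟩ := h1
      have h3 : ∀ᵐ 𝒞 : NonemptyCompacts (NonemptyCompacts ℂ)
          ∂(μ : Measure (NonemptyCompacts (NonemptyCompacts ℂ))),
          ∃ η : ℝ, 0 < η ∧ ENNReal.ofReal t ≤ dimH (U η 𝒞 ∩ S) := by
        rw [ae_iff, ← nonpos_iff_eq_zero]
        apply ENNReal.le_of_forall_pos_le_add
        intro ε hε _
        rw [zero_add]
        obtain ⟨η, hη, h⟩ := U_dim hAr R hδ hlim hμ hS hSD h1 h2 (ε := (ε : ℝ))
          (by exact_mod_cast hε)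
        rw [ENNReal.ofReal_coe_nnreal] at h
        refine (measure_mono ?_).trans h
        intro 𝒞 h𝒞 hcon
        exact h𝒞 ⟨η, hη, hcon⟩
      filter_upwards [h3] with 𝒞 h𝒞 _ _
      exact h𝒞
    · exact Eventually.of_forall fun _ h2 h3 => absurd ⟨h2, h3⟩ h1
  filter_upwards [ae_all_iff.mpr key, finite_large hAr R hδ hlim hμ] with 𝒞 h1 h2
  apply le_of_forall_lt
  intro b hb
  obtain ⟨q, hq0, hq1, hq2⟩ := ENNReal.lt_iff_exists_rat_btwn.mp hb
  have hqq : ((Real.toNNReal q : ℝ≥0) : ℝ≥0∞) = ENNReal.ofReal (q : ℝ) := rfl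
  rw [hqq] at hq1 hq2
  have hq0' : 0 < (q : ℝ) := by
    by_contra hcon
    rw [ENNReal.ofReal_of_nonpos (not_lt.mp hcon)] at hq1
    exact absurd hq1 not_lt_zero
  have hS2 : ENNReal.ofReal ((q : ℝ) + 5 / 48) < dimH S := by
    rw [ENNReal.ofReal_add hq0'.le (by norm_num)]
    exact lt_tsub_iff_right.mp hq2
  obtain ⟨η, hη, hd⟩ := h1 q hq0' hS2
  refine lt_of_lt_of_le hq1 (hd.trans ?_)
  have hsub : U η 𝒞 ∩ S ⊆ ⋃ K ∈ {K : NonemptyCompacts ℂ | K ∈ 𝒞 ∧ η ≤ diam (K : Set ℂ)},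
      ((K : Set ℂ) ∩ S) := by
    rintro x ⟨⟨K, hK, hKd, hx⟩, hxS⟩
    exact Set.mem_iUnion₂.mpr ⟨K, ⟨hK, hKd⟩, hx, hxS⟩
  refine (dimH_mono hsub).trans ?_
  rw [dimH_bUnion (h2 η hη).countable]
  refine iSup₂_le fun K hK => ?_
  refine le_iSup₂_of_le K ⟨hK.1, ?_⟩ le_rfl
  by_contra hcon
  rw [Set.not_nontrivial_iff] at hcon
  have := hK.2
  rw [diam_subsingleton hcon] at this
  linarith

/-- **Dimension of the clusters in a fixed set.** -/
theorem dim_ae {S : Set ℂ} (hS : IsSigmaCompact S) (hSD : S ⊆ R.D) :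
    ∀ᵐ 𝒞 : NonemptyCompacts (NonemptyCompacts ℂ)
      ∂(μ : Measure (NonemptyCompacts (NonemptyCompacts ℂ))),
      ⨆ K ∈ {K : NonemptyCompacts ℂ | K ∈ 𝒞 ∧ (K : Set ℂ).Nontrivial}, dimH ((K : Set ℂ) ∩ S) =
        dimH S - ENNReal.ofReal (5 / 48) := by
  obtain ⟨Kn, hKc, hKS⟩ := hS
  have h1 : ∀ n, ∀ᵐ 𝒞 : NonemptyCompacts (NonemptyCompacts ℂ)
      ∂(μ : Measure (NonemptyCompacts (NonemptyCompacts ℂ))),
      dimH (Kn n) - ENNReal.ofReal (5 / 48) ≤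
        ⨆ K ∈ {K : NonemptyCompacts ℂ | K ∈ 𝒞 ∧ (K : Set ℂ).Nontrivial},
          dimH ((K : Set ℂ) ∩ Kn n) := fun n =>
    lower_ae hAr R hδ hlim hμ (hKc n) ((hKS ▸ Set.subset_iUnion Kn n).trans hSD)
  filter_upwards [ae_all_iff.mpr h1, all_upper hAr R hδ hlim hμ hSD] with 𝒞 h2 h3
  apply le_antisymm
  · exact iSup₂_le fun K hK => (h3 K hK.1 hK.2).1
  · rw [← hKS, dimH_iUnion, ENNReal.iSup_sub]
    refine iSup_le fun n => (h2 n).trans ?_
    refine iSup₂_mono fun K _ => dimH_mono ?_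
    exact Set.inter_subset_inter_right _ (Set.subset_iUnion Kn n)

end

end Pool.Agent.TH966.CF
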