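import Pool.Agent.TH966.CF.Disc
import Pool.Agent.TH966.HD.Energy

/-!
The limit: lower bound for the dimension of the union of the large clusters in a fixed set.
-/

set_option autoImplicit false
set_option maxHeartbeats 1000000

namespace Pool.Agent.TH966.CF

open H974 H934E Pool.Agent.H160R2.CV MeasureTheory TopologicalSpace Filter Topology Metric Set
open Pool.Agent.H389R2.Dim Pool.Agent.H389R2.CD Pool.Agent.H389R2.CL
open scoped ENNReal NNReal

section Top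

variable {X : Type*} [MetricSpace X]

theorem isOpen_diam_lt (η : ℝ) : IsOpen {K : NonemptyCompacts X | diam (K : Set X) < η} := by
  rw [isOpen_iff_mem_nhds]
  intro K hK
  have hK' : diam (K : Set X) < η := hK
  have hO : IsOpen {p : X × X | dist p.1 p.2 < η} := isOpen_lt continuous_dist continuous_const
  obtain ⟨V, W, hV, hW, hKV, hKW, hVW⟩ := generalized_tube_lemma K.isCompact K.isCompact hO (by
    rintro ⟨x, y⟩ ⟨hx, hy⟩
    exact lt_of_le_of_lt (dist_le_diam_of_mem K.isCompact.isBounded hx hy) hK')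
  refine Filter.mem_of_superset ((NonemptyCompacts.isOpen_subsets_of_isOpen
    (hV.inter hW)).mem_nhds (show (K : Set X) ⊆ V ∩ W from fun x hx => ⟨hKV hx, hKW hx⟩)) ?_
  intro L hL
  have hL' : (L : Set X) ⊆ V ∩ W := hL
  have hη : 0 < η := lt_of_le_of_lt diam_nonneg hK'
  show diam (L : Set X) < η
  obtain ⟨⟨x, y⟩, ⟨hx, hy⟩, hmax⟩ := (L.isCompact.prod L.isCompact).exists_isMaxOn
    (L.nonempty.prod L.nonempty) continuous_dist.continuousOn
  have h1 : dist x y < η := hVW ⟨(hL' hx).1, (hL' hy).2⟩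
  refine lt_of_le_of_lt (diam_le_of_forall_dist_le dist_nonneg ?_) h1
  intro a ha b hb
  exact hmax (show (a, b) ∈ (L : Set X) ×ˢ (L : Set X) from ⟨ha, hb⟩)

theorem isClosed_diam_ge (η : ℝ) : IsClosed {K : NonemptyCompacts X | η ≤ diam (K : Set X)} := by
  have h := (isOpen_diam_lt (X := X) η).isClosed_compl
  convert h using 1
  ext K
  simp

theorem U_compact (η : ℝ) (𝒞 : NonemptyCompacts (NonemptyCompacts X)) : IsCompact (U η 𝒞) := by
  have h := NonemptyCompacts.isCompact_biUnion_coe_of_isCompact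
    (𝒞.isCompact.inter_right (isClosed_diam_ge (X := X) η))
  convert h using 1
  ext x
  simp only [Set.mem_iUnion, exists_prop]
  constructor
  · rintro ⟨K, h1, h2, h3⟩
    exact ⟨K, ⟨h1, h2⟩, h3⟩
  · rintro ⟨K, ⟨h1, h2⟩, h3⟩
    exact ⟨K, h1, h2, h3⟩

theorem U_sub_open (η : ℝ) {O : Set X} (hO : IsOpen O) :
    IsOpen {𝒞 : NonemptyCompacts (NonemptyCompacts X) | U η 𝒞 ⊆ O} := by
  have h := NonemptyCompacts.isOpen_subsets_of_isOpen ((isOpen_diam_lt (X := X) η).union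
    (NonemptyCompacts.isOpen_subsets_of_isOpen hO))
  convert h using 1
  ext 𝒞
  constructor
  · intro h1 K hK
    by_cases h2 : diam (K : Set X) < η
    · exact Or.inl h2
    · exact Or.inr (fun x hx => h1 ⟨K, hK, not_lt.mp h2, hx⟩)
  · rintro h1 x ⟨K, hK, h2, h3⟩
    rcases h1 hK with h4 | h4
    · exact absurd h2 (not_le.mpr h4)
    · exact h4 h3

theorem isClosed_good_U (t δ c η : ℝ) {A : Set X} (hA : IsClosed A) :
    IsClosed {𝒞 : NonemptyCompacts (NonemptyCompacts X) | Good t δ c (U η 𝒞 ∩ A)} := by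
  have h : {𝒞 : NonemptyCompacts (NonemptyCompacts X) | Good t δ c (U η 𝒞 ∩ A)} =
      ⋂ s : Finset (X × ℝ), {𝒞 | (∀ p ∈ s, δ ≤ p.2) →
        U η 𝒞 ∩ A ⊆ ⋃ p ∈ s, ball p.1 p.2 → c ≤ ∑ p ∈ s, p.2 ^ t} := by
    ext 𝒞; simp [Good]
  rw [h]
  apply isClosed_iInter
  intro s
  by_cases h1 : (∀ p ∈ s, δ ≤ p.2) ∧ ¬ c ≤ ∑ p ∈ s, p.2 ^ t
  · have h2 : {𝒞 : NonemptyCompacts (NonemptyCompacts X) | (∀ p ∈ s, δ ≤ p.2) →
        U η 𝒞 ∩ A ⊆ ⋃ p ∈ s, ball p.1 p.2 → c ≤ ∑ p ∈ s, p.2 ^ t} =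
        {𝒞 | U η 𝒞 ⊆ (⋃ p ∈ s, ball p.1 p.2) ∪ Aᶜ}ᶜ := by
      ext 𝒞
      simp only [Set.mem_ofPred_eq, Set.mem_compl_iff]
      constructor
      · intro h3 h4
        refine h1.2 (h3 h1.1 ?_)
        rintro x ⟨hx1, hx2⟩
        rcases h4 hx1 with h5 | h5
        · exact h5
        · exact absurd hx2 h5
      · intro h3 _ h4
        exfalso
        apply h3
        intro x hx
        by_cases hxA : x ∈ A
        · left; exact h4 ⟨hx, hxA⟩
        · right; exact hxA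
    rw [h2]
    exact (U_sub_open η ((isOpen_biUnion fun p _ => isOpen_ball).union
      hA.isOpen_compl)).isClosed_compl
  · have h2 : {𝒞 : NonemptyCompacts (NonemptyCompacts X) | (∀ p ∈ s, δ ≤ p.2) →
        U η 𝒞 ∩ A ⊆ ⋃ p ∈ s, ball p.1 p.2 → c ≤ ∑ p ∈ s, p.2 ^ t} = univ := by
      ext 𝒞
      simp only [Set.mem_ofPred_eq, Set.mem_univ, iff_true]
      intro h3 _
      by_contra h4
      exact h1 ⟨h3, h4⟩
    rw [h2]; exact isClosed_univ

end Top

theorem liminf_meas {Ω : Type*} [MeasurableSpace Ω] {μ : Measure Ω} {B : ℕ → Set Ω} {b : ℝ≥0∞}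
    (h : ∀ n, μ (B n) ≤ b) : μ {ω | ∀ᶠ n in atTop, ω ∈ B n} ≤ b := by
  have e : {ω | ∀ᶠ n in atTop, ω ∈ B n} = ⋃ N : ℕ, ⋂ n : ℕ, ⋂ _ : N ≤ n, B n := by
    ext ω
    simp only [Set.mem_ofPred_eq, eventually_atTop, Set.mem_iUnion, Set.mem_iInter]
  have hmono : Monotone (fun N : ℕ => ⋂ n : ℕ, ⋂ _ : N ≤ n, B n) := by
    intro a b hab ω hω
    simp only [Set.mem_iInter] at hω ⊢
    intro n hn
    exact hω n (hab.trans hn)
  rw [e, hmono.measure_iUnion]
  refine iSup_le fun N => le_trans (measure_mono ?_) (h N)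
  intro ω hω
  simp only [Set.mem_iInter] at hω
  exact hω N le_rfl

/-- A positive distance to the boundary of the rectangle. -/
theorem room {R : Rect} {S : Set ℂ} (hS : IsCompact S) (hSD : S ⊆ R.D) :
    ∃ η : ℝ, 0 < η ∧ ∀ x ∈ S, csq x (2 * η) ⊆ R.D := by
  have hD : IsOpen R.D := by
    have h1 : IsOpen {z : ℂ | -R.A < z.re} := isOpen_lt continuous_const Complex.continuous_re
    have h2 : IsOpen {z : ℂ | z.re < R.B} := isOpen_lt Complex.continuous_re continuous_const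
    have h3 : IsOpen {z : ℂ | 0 < z.im} := isOpen_lt continuous_const Complex.continuous_im
    have h4 : IsOpen {z : ℂ | z.im < R.H} := isOpen_lt Complex.continuous_im continuous_const
    exact h1.inter (h2.inter (h3.inter h4))
  obtain ⟨ε, hε, h⟩ := hS.exists_cthickening_subset_open hD hSD
  refine ⟨ε / 8, by positivity, ?_⟩
  intro x hx y hy
  apply h
  apply mem_cthickening_of_dist_le y x ε S hx
  obtain ⟨h1, h2⟩ := hy
  rw [Complex.dist_eq]
  refine (Complex.norm_le_abs_re_add_abs_im _).trans ?_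
  rw [Complex.sub_re, Complex.sub_im]
  linarith

section

variable (hAr : ArS) (R : Rect) {δ : ℕ → ℝ} (hδ : ∀ i, 0 < δ i) (hlim : Tendsto δ atTop (𝓝 0))
  {μ : ProbabilityMeasure (NonemptyCompacts (NonemptyCompacts ℂ))}
  (hμ : Tendsto (fun i => collLaw R (δ i)) atTop (𝓝 μ))

include hδ hlim hμ

/-- From the discrete models to the limit. -/
theorem lim_good {t c η r q : ℝ} {S : Set ℂ} (hr : 0 < r)
    (h : ∀ δ : ℝ, 0 < δ → 16 * δ ≤ r → Pr P (R.edges δ) (fun F => ¬ Good t (4 * r) c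
      (U (η / 2) (coll R δ F) ∩ cthickening (4 * r) S)) ≤ q) :
    (μ : Measure (NonemptyCompacts (NonemptyCompacts ℂ)))
      {𝒞 | ¬ Good t (4 * r) c (U (η / 2) 𝒞 ∩ cthickening (4 * r) S)} ≤ ENNReal.ofReal q := by
  have hopen : IsOpen {𝒞 : NonemptyCompacts (NonemptyCompacts ℂ) |
      ¬ Good t (4 * r) c (U (η / 2) 𝒞 ∩ cthickening (4 * r) S)} :=
    (isClosed_good_U t (4 * r) c (η / 2) isClosed_cthickening).isOpen_compl
  refine (ProbabilityMeasure.le_liminf_measure_open_of_tendsto hμ hopen).trans ?_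
  apply Filter.liminf_le_of_frequently_le'
  apply Eventually.frequently
  filter_upwards [hlim.eventually_lt_const (show (0 : ℝ) < r / 16 by positivity)] with i hi
  rw [collLaw_apply _ _ hopen.measurableSet]
  exact ENNReal.ofReal_le_ofReal (h (δ i) (hδ i) (by linarith))

include hAr

/-- The union of the large clusters has large dimension with high probability. -/
theorem U_dim {S : Set ℂ} (hS : IsCompact S) (hSD : S ⊆ R.D) {t : ℝ} (ht : 0 < t)
    (h : ENNReal.ofReal (t + 5 / 48) < dimH S) {ε : ℝ} (hε : 0 < ε) :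
    ∃ η : ℝ, 0 < η ∧ (μ : Measure (NonemptyCompacts (NonemptyCompacts ℂ)))
      {𝒞 | ¬ ENNReal.ofReal t ≤ dimH (U η 𝒞 ∩ S)} ≤ ENNReal.ofReal ε := by
  obtain ⟨s, hs0, hs1, hs2⟩ := ENNReal.lt_iff_exists_real_btwn.mp h
  have hts : t + 5 / 48 < s := (ENNReal.ofReal_lt_ofReal_iff_of_nonneg (by linarith)).mp hs1
  obtain ⟨ν, hν, hν0, C3, hC3, hfr⟩ := HD.frostman_complex hS hs0 hs2
  have e1 := HD.energy_frostman hC3 (β := t) ht (by linarith) hfr
  have e2 := HD.energy_frostman hC3 (β := 5 / 48 + t) (by linarith) (by linarith) hfr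
  obtain ⟨K, hK, hdisc⟩ := disc_good hAr
  obtain ⟨η0, hη0, hroom⟩ := room hS hSD
  obtain ⟨J1, hJ1⟩ : ∃ J1 : ℝ, J1 = 3 ^ t * (HD.energy t ν).toReal + 1 := ⟨_, rfl⟩
  obtain ⟨J2, hJ2⟩ : ∃ J2 : ℝ, J2 = 3 ^ (5 / 48 + t) * (HD.energy (5 / 48 + t) ν).toReal :=
    ⟨_, rfl⟩
  have hJ1p : 0 < J1 := by rw [hJ1]; positivity
  have hJ2p : 0 ≤ J2 := by rw [hJ2]; positivity
  -- choice of the scale
  obtain ⟨η, hη, hηη, hηv⟩ : ∃ η : ℝ, 0 < η ∧ η ≤ η0 ∧
      K * η ^ ((5 : ℝ) / 48) * ((8 * η) ^ t * J2) ≤ ε / 2 := by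
    have hl : Tendsto (fun η : ℝ => K * η ^ ((5 : ℝ) / 48) * ((8 * η) ^ t * J2)) (𝓝[>] 0)
        (𝓝 (K * 0 ^ ((5 : ℝ) / 48) * ((8 * 0) ^ t * J2))) := by
      apply Tendsto.mono_left _ nhdsWithin_le_nhds
      apply Tendsto.mul
      · exact (tendsto_id.rpow_const (Or.inr (by norm_num))).const_mul K
      · exact ((tendsto_id.const_mul 8).rpow_const (Or.inr ht.le)).mul_const J2
    rw [Real.zero_rpow (by norm_num), mul_zero, zero_mul] at hl
    have h1 := hl.eventually_lt_const (show (0 : ℝ) < ε / 2 by positivity)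
    have h2 : ∀ᶠ η : ℝ in 𝓝[>] 0, η ∈ Ioc 0 η0 := Ioc_mem_nhdsGT hη0
    obtain ⟨η, h3, h4⟩ := (h1.and h2).exists
    exact ⟨η, h4.1, h4.2, h3.le⟩
  refine ⟨η / 2, by positivity, ?_⟩
  obtain ⟨c, hc⟩ : ∃ c : ℝ, c = 4 ^ (-t) / (4 * (J1 + K * η ^ ((5 : ℝ) / 48) * J2) / (ε / 2)) :=
    ⟨_, rfl⟩
  have hc0 : 0 < c := by rw [hc]; positivity
  obtain ⟨ρ, hρ⟩ : ∃ ρ : ℕ → ℝ, ρ = fun n : ℕ => η / 16 / ((n : ℝ) + 1) := ⟨_, rfl⟩
  have hρ0 : ∀ n, 0 < ρ n := fun n => by rw [hρ]; positivity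
  have hρ1 : ∀ n, ρ n ≤ η / 16 := fun n => by
    rw [hρ]
    apply div_le_self (by positivity)
    have : (0:ℝ) ≤ n := Nat.cast_nonneg n
    linarith
  have key : ∀ n, (μ : Measure (NonemptyCompacts (NonemptyCompacts ℂ)))
      {𝒞 | ¬ Good t (4 * ρ n) c (U (η / 2) 𝒞 ∩ cthickening (4 * ρ n) S)} ≤ ENNReal.ofReal ε := by
    intro n
    have hr := hρ0 n
    have hr1 := hρ1 n
    obtain ⟨T, w, hTS, hw, hw1, hb⟩ := HD.disc hS hν0 hr
    have hmx : ∀ x y : ℂ, 0 < max (dist x y) (ρ n) := fun x y => lt_of_lt_of_le hr (le_max_right _ _)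
    have b1 := hb t ht.le e1
    have b2 := hb (5 / 48 + t) (by linarith) e2
    rw [← hJ2] at b2
    refine lim_good R hδ hlim hμ hr (q := ε) (t := t) (c := c) (η := η) (S := S) ?_
    intro δ' hδ' hδr
    refine (Pr_mono w_ok (fun F _ h => ?_)).trans ((hdisc R T w S (ρ n) η δ' hTS hr
      (by linarith) hδ' hδr hw hw1 (fun x hx => ?_) t ((8 * η) ^ t * J2) J1 J2 (ε / 2) ht.le
      (by positivity) hJ1p hJ2p ?_ (b1.trans (by rw [hJ1]; linarith)) b2).trans ?_)
    · rw [← hc]; exact h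
    · refine Set.Subset.trans ?_ (hroom x (hTS x hx))
      rintro y ⟨h1, h2⟩
      exact ⟨h1.trans (by linarith), h2.trans (by linarith)⟩
    · refine le_trans ?_ (mul_le_mul_of_nonneg_left b2 (show 0 ≤ (8 * η) ^ t by positivity))
      rw [Finset.mul_sum]
      refine Finset.sum_le_sum fun x hx => ?_
      rw [Finset.mul_sum]
      refine Finset.sum_le_sum fun y hy => ?_
      have hww := mul_nonneg (hw x hx) (hw y hy)
      have hp : 0 ≤ (max (dist x y) (ρ n)) ^ (-(5 / 48 + t)) := Real.rpow_nonneg (hmx x y).le _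
      split_ifs with h1
      · have h2 : max (dist x y) (ρ n) ≤ 8 * η := max_le h1 (by linarith)
        have h3 : (max (dist x y) (ρ n)) ^ (-(5 / 48) : ℝ) =
            (max (dist x y) (ρ n)) ^ t * (max (dist x y) (ρ n)) ^ (-(5 / 48 + t)) := by
          rw [← Real.rpow_add (hmx x y)]
          congr 1
          ring
        have h4 : (max (dist x y) (ρ n)) ^ t ≤ (8 * η) ^ t :=
          Real.rpow_le_rpow (hmx x y).le h2 ht.le
        rw [h3]
        have h5 := mul_le_mul_of_nonneg_right h4 (mul_nonneg hww hp)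
        linarith
      · positivity
    · linarith
  refine le_trans (measure_mono ?_) (liminf_meas key)
  intro 𝒞 h𝒞
  by_contra hcon
  apply h𝒞
  have hfr : ∃ᶠ n in atTop, Good t (4 * ρ n) c (U (η / 2) 𝒞 ∩ cthickening (4 * ρ n) S) := by
    intro hev
    exact hcon hev
  have hlimρ : Tendsto (fun n => 4 * ρ n) atTop (𝓝 0) := by
    rw [hρ]
    have := (tendsto_one_div_add_atTop_nhds_zero_nat (𝕜 := ℝ)).const_mul (4 * (η / 16))
    rw [mul_zero] at this
    refine this.congr fun n => ?_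
    ring
  refine le_dimH_of_good ht hc0 ((U_compact (η / 2) 𝒞).inter hS) ?_
  intro δ' hδ' s' hs' hcov
  obtain ⟨ε', hε', hcov2⟩ := HD.cover_eventually (U_compact (η / 2) 𝒞) hS
    (isOpen_biUnion fun p _ => isOpen_ball) hcov
  obtain ⟨n, hn1, hn2⟩ := (hfr.and_eventually
    (hlimρ.eventually_lt_const (lt_min hε' hδ'))).exists
  have hn3 : 4 * ρ n ≤ ε' := hn2.le.trans (min_le_left _ _)
  have hn4 : 4 * ρ n ≤ δ' := hn2.le.trans (min_le_right _ _)
  exact hn1 s' (fun p hp => hn4.trans (hs' p hp)) (hcov2 (4 * ρ n) hn3)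

end

end Pool.Agent.TH966.CF
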