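import Pool.Agent.TH966.CF.Fin

/-!
Clusters and fixed sets: all open sets simultaneously.
-/

set_option autoImplicit false
set_option maxHeartbeats 1000000

namespace Pool.Agent.TH966.CF

open H974 H934E Pool.Agent.H160R2.CV MeasureTheory TopologicalSpace Filter Topology Metric Set
open Pool.Agent.H389R2.Dim Pool.Agent.H389R2.CD Pool.Agent.H389R2.CL
open scoped ENNReal NNReal

/-- A countable family of closed discs. -/
noncomputable def Bq (p : ℕ × ℕ) : Set ℂ := closedBall (denseSeq ℂ p.1) (1 / ((p.2 : ℝ) + 1))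

theorem open_eq {O S : Set ℂ} (hO : IsOpen O) :
    S ∩ O = ⋃ p ∈ {p : ℕ × ℕ | Bq p ⊆ O}, (S ∩ Bq p) := by
  ext x
  constructor
  · rintro ⟨hx, hxO⟩
    obtain ⟨e, he, hb⟩ := Metric.isOpen_iff.mp hO x hxO
    obtain ⟨n, hn⟩ := exists_nat_one_div_lt (show (0 : ℝ) < e / 2 by positivity)
    have hn0 : (0 : ℝ) < 1 / ((n : ℝ) + 1) := by positivity
    obtain ⟨k, hk⟩ := (denseRange_denseSeq ℂ).exists_dist_lt x hn0
    refine Set.mem_iUnion₂.mpr ⟨(k, n), ?_, hx, ?_⟩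
    · intro y hy
      apply hb
      have hy' : dist y (denseSeq ℂ k) ≤ 1 / ((n : ℝ) + 1) := hy
      rw [mem_ball]
      have h1 := dist_triangle_right y x (denseSeq ℂ k)
      linarith
    · show dist x (denseSeq ℂ k) ≤ 1 / ((n : ℝ) + 1)
      exact hk.le
  · intro hx
    obtain ⟨p, hp, hx1, hx2⟩ := Set.mem_iUnion₂.mp hx
    exact ⟨hx1, hp hx2⟩

section

variable (hAr : ArS) (R : Rect) {δ : ℕ → ℝ} (hδ : ∀ i, 0 < δ i) (hlim : Tendsto δ atTop (𝓝 0))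
  {μ : ProbabilityMeasure (NonemptyCompacts (NonemptyCompacts ℂ))}
  (hμ : Tendsto (fun i => collLaw R (δ i)) atTop (𝓝 μ))

include hAr hδ hlim hμ

/-- **Dimension of the clusters in a fixed set, in all open sets.** -/
theorem dim_open {S : Set ℂ} (hS : IsSigmaCompact S) (hSD : S ⊆ R.D) :
    ∀ᵐ 𝒞 : NonemptyCompacts (NonemptyCompacts ℂ)
      ∂(μ : Measure (NonemptyCompacts (NonemptyCompacts ℂ))),
      ∀ O : Set ℂ, IsOpen O →
      ⨆ K ∈ {K : NonemptyCompacts ℂ | K ∈ 𝒞 ∧ (K : Set ℂ).Nontrivial},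
        dimH ((K : Set ℂ) ∩ (S ∩ O)) = dimH (S ∩ O) - ENNReal.ofReal (5 / 48) := by
  have key : ∀ p : ℕ × ℕ, ∀ᵐ 𝒞 : NonemptyCompacts (NonemptyCompacts ℂ)
      ∂(μ : Measure (NonemptyCompacts (NonemptyCompacts ℂ))),
      ⨆ K ∈ {K : NonemptyCompacts ℂ | K ∈ 𝒞 ∧ (K : Set ℂ).Nontrivial},
        dimH ((K : Set ℂ) ∩ (S ∩ Bq p)) = dimH (S ∩ Bq p) - ENNReal.ofReal (5 / 48) := by
    intro p
    refine dim_ae hAr R hδ hlim hμ ?_ (Set.inter_subset_left.trans hSD)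
    obtain ⟨Kn, hKc, hKS⟩ := hS
    refine ⟨fun n => Kn n ∩ Bq p, fun n => (hKc n).inter_right isClosed_closedBall, ?_⟩
    rw [← Set.iUnion_inter, hKS]
  filter_upwards [ae_all_iff.mpr key] with 𝒞 h𝒞 O hO
  have e1 : dimH (S ∩ O) = ⨆ p ∈ {p : ℕ × ℕ | Bq p ⊆ O}, dimH (S ∩ Bq p) := by
    rw [open_eq hO, dimH_bUnion (Set.to_countable _)]
  have e2 : ∀ K : NonemptyCompacts ℂ, dimH ((K : Set ℂ) ∩ (S ∩ O)) =
      ⨆ p ∈ {p : ℕ × ℕ | Bq p ⊆ O}, dimH ((K : Set ℂ) ∩ (S ∩ Bq p)) := by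
    intro K
    rw [open_eq hO, Set.inter_iUnion₂, dimH_bUnion (Set.to_countable _)]
  simp_rw [e2, e1, ENNReal.iSup_sub]
  apply le_antisymm
  · refine iSup₂_le fun K hK => iSup₂_le fun p hp => ?_
    refine le_trans ?_ (le_iSup₂_of_le p hp le_rfl)
    rw [← h𝒞 p]
    exact le_iSup₂_of_le K hK le_rfl
  · refine iSup₂_le fun p hp => ?_
    rw [← h𝒞 p]
    refine iSup₂_le fun K hK => ?_
    exact le_iSup₂_of_le K hK (le_iSup₂_of_le p hp le_rfl)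

end

end Pool.Agent.TH966.CF
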