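import Pool.Agent.TH966.CF.Two
import Pool.Agent.TH966.CF.Conc
import Pool.Agent.H389R2.CL.Up

/-!
Discs around fixed points and large clusters of the rectangle.
-/

set_option autoImplicit false
set_option maxHeartbeats 1000000

namespace Pool.Agent.TH966.CF

open H974 H934E Pool.Agent.H160R2.CV MeasureTheory TopologicalSpace Filter Topology Metric Set
open Pool.Agent.H389R2.Dim Pool.Agent.H389R2.CD Pool.Agent.H389R2.CL
open Pool.Agent.H160R2.CV.Quad H362P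
open scoped ENNReal NNReal

/-- The vertex near `z`. -/
noncomputable def cx (δ : ℝ) (z : ℂ) : Vtx := (⌊z.re / δ⌋, ⌊z.im / δ⌋ - 1)

theorem fl_bounds {δ : ℝ} (hδ : 0 < δ) (x : ℝ) :
    δ * (⌊x / δ⌋ : ℝ) ≤ x ∧ x < δ * (⌊x / δ⌋ : ℝ) + δ := by
  have h1 := Int.floor_le (x / δ)
  have h2 := Int.lt_floor_add_one (x / δ)
  rw [le_div_iff₀ hδ] at h1
  rw [div_lt_iff₀ hδ] at h2
  constructor
  · linarith
  · linarith

theorem nvR (u v : Vtx) : ((nv (u - v) : ℕ) : ℝ) = max |(u.1 : ℝ) - v.1| |(u.2 : ℝ) - v.2| := by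
  unfold nv
  simp only [Prod.fst_sub, Prod.snd_sub, Nat.cast_max, Nat.cast_natAbs, Int.cast_abs,
    Int.cast_sub]

/-- distances of vertices, above -/
theorem nv_up {δ : ℝ} (hδ : 0 < δ) (z w : ℂ) :
    dist z w ≤ 2 * (δ * (nv (cx δ z - cx δ w) : ℝ) + δ) := by
  obtain ⟨a1, a2⟩ := fl_bounds hδ z.re
  obtain ⟨b1, b2⟩ := fl_bounds hδ z.im
  obtain ⟨c1, c2⟩ := fl_bounds hδ w.re
  obtain ⟨d1, d2⟩ := fl_bounds hδ w.im
  have h1 : |z.re - w.re| ≤ δ * |(⌊z.re / δ⌋ : ℝ) - ⌊w.re / δ⌋| + δ := by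
    rw [← abs_of_pos hδ, ← abs_mul, abs_of_pos hδ]
    have h3 := le_abs_self (δ * ((⌊z.re / δ⌋ : ℝ) - ⌊w.re / δ⌋))
    have h4 := neg_abs_le (δ * ((⌊z.re / δ⌋ : ℝ) - ⌊w.re / δ⌋))
    rw [abs_le]
    constructor <;> nlinarith
  have h2 : |z.im - w.im| ≤ δ * |((⌊z.im / δ⌋ : ℝ) - 1) - (⌊w.im / δ⌋ - 1)| + δ := by
    rw [← abs_of_pos hδ, ← abs_mul, abs_of_pos hδ]
    have h3 := le_abs_self (δ * (((⌊z.im / δ⌋ : ℝ) - 1) - (⌊w.im / δ⌋ - 1)))
    have h4 := neg_abs_le (δ * (((⌊z.im / δ⌋ : ℝ) - 1) - (⌊w.im / δ⌋ - 1)))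
    rw [abs_le]
    constructor <;> nlinarith
  rw [nvR, Complex.dist_eq]
  have h3 := Complex.norm_le_abs_re_add_abs_im (z - w)
  rw [Complex.sub_re, Complex.sub_im] at h3
  have e1 : (cx δ z).1 = ⌊z.re / δ⌋ := rfl
  have e2 : (cx δ z).2 = ⌊z.im / δ⌋ - 1 := rfl
  have e3 : (cx δ w).1 = ⌊w.re / δ⌋ := rfl
  have e4 : (cx δ w).2 = ⌊w.im / δ⌋ - 1 := rfl
  rw [e1, e2, e3, e4]
  push_cast
  have m1 := mul_le_mul_of_nonneg_left (le_max_left |(⌊z.re / δ⌋ : ℝ) - ⌊w.re / δ⌋|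
    |((⌊z.im / δ⌋ : ℝ) - 1) - (⌊w.im / δ⌋ - 1)|) hδ.le
  have m2 := mul_le_mul_of_nonneg_left (le_max_right |(⌊z.re / δ⌋ : ℝ) - ⌊w.re / δ⌋|
    |((⌊z.im / δ⌋ : ℝ) - 1) - (⌊w.im / δ⌋ - 1)|) hδ.le
  linarith

/-- The box of radius `n` is in the domain. -/
theorem bo_edges {R : Rect} {z : ℂ} {η δ : ℝ} (hη : 0 < η) (hD : csq z (2 * η) ⊆ R.D)
    (hδ : 0 < δ) (hδη : 8 * δ ≤ η) : bo (cx δ z) ⌊η / δ⌋₊ ⊆ R.edges δ := by
  obtain ⟨a1, a2⟩ := fl_bounds hδ z.re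
  obtain ⟨b1, b2⟩ := fl_bounds hδ z.im
  have hn : (⌊η / δ⌋₊ : ℝ) * δ ≤ η := by
    have := Nat.floor_le (show 0 ≤ η / δ by positivity)
    rwa [le_div_iff₀ hδ] at this
  have hv : ∀ v : Vtx, (⌊z.re / δ⌋ - (⌊η / δ⌋₊ : ℤ) ≤ v.1 ∧ v.1 ≤ ⌊z.re / δ⌋ + (⌊η / δ⌋₊ : ℤ)) →
      (⌊z.im / δ⌋ - 1 - (⌊η / δ⌋₊ : ℤ) ≤ v.2 ∧ v.2 ≤ ⌊z.im / δ⌋ - 1 + (⌊η / δ⌋₊ : ℤ)) →
      v ∈ R.verts δ := by
    rintro v ⟨h1, h2⟩ ⟨h3, h4⟩
    rw [R.mem_verts hδ]
    apply hD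
    have g1 : ((⌊z.re / δ⌋ : ℝ) - (⌊η / δ⌋₊ : ℝ)) ≤ v.1 := by exact_mod_cast h1
    have g2 : (v.1 : ℝ) ≤ (⌊z.re / δ⌋ : ℝ) + (⌊η / δ⌋₊ : ℝ) := by exact_mod_cast h2
    have g3 : ((⌊z.im / δ⌋ : ℝ) - 1 - (⌊η / δ⌋₊ : ℝ)) ≤ v.2 := by exact_mod_cast h3
    have g4 : (v.2 : ℝ) ≤ (⌊z.im / δ⌋ : ℝ) - 1 + (⌊η / δ⌋₊ : ℝ) := by exact_mod_cast h4
    have f1 := mul_le_mul_of_nonneg_left g1 hδ.le
    have f2 := mul_le_mul_of_nonneg_left g2 hδ.le
    have f3 := mul_le_mul_of_nonneg_left g3 hδ.le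
    have f4 := mul_le_mul_of_nonneg_left g4 hδ.le
    unfold pt
    constructor
    · simp only
      rw [abs_le]
      constructor <;> nlinarith
    · simp only
      rw [abs_le]
      constructor <;> nlinarith
  rintro ⟨x, y, b⟩ he
  unfold Rect.edges
  rw [H973.mem_ES]
  unfold bo at he
  have e1 : (cx δ z).1 = ⌊z.re / δ⌋ := rfl
  have e2 : (cx δ z).2 = ⌊z.im / δ⌋ - 1 := rfl
  rw [e1, e2] at he
  cases b
  · rw [mem_RE_false] at he
    rw [tgt_false, src_mk]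
    refine ⟨hv _ ?_ ?_, hv _ ?_ ?_⟩ <;> simp only <;> omega
  · rw [mem_RE_true] at he
    rw [tgt_true, src_mk]
    refine ⟨hv _ ?_ ?_, hv _ ?_ ?_⟩ <;> simp only <;> omega

theorem reach_start {R : Rect} {δ : ℝ} {F : Finset Edg} (hF : F ⊆ R.edges δ) {u w : Vtx}
    (h : Reach (↑F : Set Edg) u w) (hne : u ≠ w) : u ∈ R.verts δ := by
  rcases Relation.ReflTransGen.cases_head h with h1 | ⟨v, ⟨e, he, hc⟩, -⟩
  · exact absurd h1 hne
  · have h2 := hF (Finset.mem_coe.mp he)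
    unfold Rect.edges at h2
    rw [H973.mem_ES] at h2
    rcases hc with ⟨h3, _⟩ | ⟨_, h3⟩
    · rw [← h3]; exact h2.1
    · rw [← h3]; exact h2.2

/-- The box event gives a large cluster near `z`. -/
theorem det {R : Rect} {z : ℂ} {r η δ : ℝ} (hr : 0 < r) (hrη : 16 * r ≤ η) (hδ : 0 < δ)
    (hδr : 16 * δ ≤ r) {F : Finset Edg} (hF : F ⊆ R.edges δ)
    (h : Ex1 (cx δ z) ⌈r / δ⌉₊ ⌊η / δ⌋₊ F) :
    ∃ K ∈ coll R δ F, η / 2 ≤ diam (K : Set ℂ) ∧ ∃ a ∈ (K : Set ℂ), dist a z ≤ 4 * r := by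
  obtain ⟨u, w, h1, h2, h3⟩ := Ex1_out h
  have hη : 0 < η := by linarith
  have n2 : η < ((⌊η / δ⌋₊ : ℝ) + 1) * δ := by
    have := Nat.lt_floor_add_one (η / δ)
    rwa [div_lt_iff₀ hδ] at this
  have m1 : (⌈r / δ⌉₊ : ℝ) * δ < r + δ := by
    have := Nat.ceil_lt_add_one (show 0 ≤ r / δ by positivity)
    calc (⌈r / δ⌉₊ : ℝ) * δ < (r / δ + 1) * δ := mul_lt_mul_of_pos_right this hδ
      _ = r + δ := by field_simp
  have h1' : ((nv (u - cx δ z) : ℕ) : ℝ) ≤ (⌈r / δ⌉₊ : ℝ) := by exact_mod_cast h1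
  have h2' : (⌊η / δ⌋₊ : ℝ) ≤ ((nv (w - cx δ z) : ℕ) : ℝ) := by exact_mod_cast h2
  have htri : ((nv (w - cx δ z) : ℕ) : ℝ) ≤ ((nv (w - u) : ℕ) : ℝ) + ((nv (u - cx δ z) : ℕ) : ℝ) := by
    exact_mod_cast nv_tri w u (cx δ z)
  have hwu : η / 2 ≤ δ * ((nv (w - u) : ℕ) : ℝ) := by nlinarith
  have hne : u ≠ w := by
    rintro rfl
    rw [nv_self] at hwu
    simp only [Nat.cast_zero, mul_zero] at hwu
    linarith
  refine ⟨clAt R δ F u, ⟨u, Set.mem_insert_of_mem _ (Finset.mem_coe.mpr (reach_start hF h3 hne)),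
    rfl⟩, ?_, pt δ u, Or.inl ⟨u, Reach.refl _ _, rfl⟩, ?_⟩
  · have hd : dist (pt δ w) (pt δ u) ≤ diam ((clAt R δ F u : NonemptyCompacts ℂ) : Set ℂ) := by
      apply dist_le_diam_of_mem (clAt R δ F u).isCompact.isBounded
      · exact Or.inl ⟨w, h3.mono Set.subset_union_left, rfl⟩
      · exact Or.inl ⟨u, Reach.refl _ _, rfl⟩
    refine hwu.trans (le_trans ?_ hd)
    rw [nvR, Complex.dist_eq]
    unfold pt
    rcases le_total |(w.1 : ℝ) - u.1| |(w.2 : ℝ) - u.2| with hc | hc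
    · rw [max_eq_right hc]
      refine le_trans (le_of_eq ?_) (Complex.abs_im_le_norm _)
      simp only [Complex.sub_im]
      rw [← abs_of_pos hδ, ← abs_mul, abs_of_pos hδ]
      congr 1
      ring
    · rw [max_eq_left hc]
      refine le_trans (le_of_eq ?_) (Complex.abs_re_le_norm _)
      simp only [Complex.sub_re]
      rw [← abs_of_pos hδ, ← abs_mul, abs_of_pos hδ]
      congr 1
      ring
  · rw [nvR] at h1'
    obtain ⟨a1, a2⟩ := fl_bounds hδ z.re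
    obtain ⟨b1, b2⟩ := fl_bounds hδ z.im
    have g1 := (le_max_left _ _).trans h1'
    have g2 := (le_max_right _ _).trans h1'
    have e1 : (cx δ z).1 = ⌊z.re / δ⌋ := rfl
    have e2 : (cx δ z).2 = ⌊z.im / δ⌋ - 1 := rfl
    rw [e1, abs_le] at g1
    rw [e2, abs_le] at g2
    push_cast at g2
    rw [Complex.dist_eq]
    refine (Complex.norm_le_abs_re_add_abs_im _).trans ?_
    unfold pt
    simp only [Complex.sub_re, Complex.sub_im]
    have f1 := mul_le_mul_of_nonneg_left g1.1 hδ.le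
    have f2 := mul_le_mul_of_nonneg_left g1.2 hδ.le
    have f3 := mul_le_mul_of_nonneg_left g2.1 hδ.le
    have f4 := mul_le_mul_of_nonneg_left g2.2 hδ.le
    have k1 : |δ * (u.1 : ℝ) - z.re| ≤ r + 2 * δ := by
      rw [abs_le]
      constructor <;> nlinarith
    have k2 : |δ * ((u.2 : ℝ) + 1) - z.im| ≤ r + 2 * δ := by
      rw [abs_le]
      constructor <;> nlinarith
    linarith

/-- Two-point estimate in the scaled lattice. -/
theorem two_phys (hAr : ArS) : ∃ K : ℝ, 0 < K ∧ ∀ (S : Finset Edg) (z w : ℂ) (r η δ : ℝ), 0 < r →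
    16 * r ≤ η → 0 < δ → 16 * δ ≤ r →
    Pr P S (fun F => Ex1 (cx δ z) ⌈r / δ⌉₊ ⌊η / δ⌋₊ F ∧ Ex1 (cx δ w) ⌈r / δ⌉₊ ⌊η / δ⌋₊ F) ≤
      barm (1 / 2) ⌈r / δ⌉₊ ⌊η / δ⌋₊ ^ 2 *
        (1 + if dist z w ≤ 8 * η then K * (η / max (dist z w) r) ^ ((5 : ℝ) / 48) else 0) := by
  obtain ⟨K, hK, h⟩ := two_le hAr
  refine ⟨4 * K, by positivity, ?_⟩
  intro S z w r η δ hr hrη hδ hδr
  have hη : 0 < η := by linarith
  obtain ⟨m, hm⟩ : ∃ m, m = ⌈r / δ⌉₊ := ⟨_, rfl⟩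
  obtain ⟨n, hn⟩ : ∃ n, n = ⌊η / δ⌋₊ := ⟨_, rfl⟩
  rw [← hm, ← hn]
  have n1 : (n : ℝ) * δ ≤ η := by
    have := Nat.floor_le (show 0 ≤ η / δ by positivity)
    rw [le_div_iff₀ hδ] at this
    rw [hn]; exact this
  have n2 : η < ((n : ℝ) + 1) * δ := by
    have := Nat.lt_floor_add_one (η / δ)
    rw [div_lt_iff₀ hδ] at this
    rw [hn]; exact this
  have m1 : (m : ℝ) * δ < r + δ := by
    have := Nat.ceil_lt_add_one (show 0 ≤ r / δ by positivity)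
    rw [hm]
    calc (⌈r / δ⌉₊ : ℝ) * δ < (r / δ + 1) * δ := mul_lt_mul_of_pos_right this hδ
      _ = r + δ := by field_simp
  have m2 : r ≤ (m : ℝ) * δ := by
    have := Nat.le_ceil (r / δ)
    rw [div_le_iff₀ hδ] at this
    rw [hm]; exact this
  have hq := barm_nonneg (q := 1 / 2) (by norm_num) (by norm_num) m n
  have hmx : 0 < max (dist z w) r := lt_of_lt_of_le hr (le_max_right _ _)
  have hup := nv_up hδ z w
  obtain ⟨d, hd⟩ : ∃ d, d = nv (cx δ z - cx δ w) := ⟨_, rfl⟩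
  rw [← hd] at hup
  by_cases h1 : 2 * n + 1 ≤ d
  · refine (two_far (by rw [← hd]; exact h1) S).trans ?_
    have h2 : (0 : ℝ) ≤ if dist z w ≤ 8 * η then 4 * K * (η / max (dist z w) r) ^ ((5 : ℝ) / 48)
        else 0 := by
      split_ifs
      · positivity
      · exact le_rfl
    nlinarith [sq_nonneg (barm (1 / 2) m n)]
  · push Not at h1
    have hd2 : (d : ℝ) ≤ 2 * n := by
      have : d ≤ 2 * n := by omega
      exact_mod_cast this
    have hdist : dist z w ≤ 8 * η := by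
      have : δ * (d : ℝ) ≤ 2 * η := by nlinarith
      linarith
    rw [if_pos hdist]
    have hm1 : 1 ≤ m := by
      have : (0 : ℝ) < m := by
        by_contra hcon
        push Not at hcon
        nlinarith
      exact_mod_cast this
    have hmn : 3 * m ≤ n := by
      have : ((3 * m : ℕ) : ℝ) ≤ (n : ℝ) := by
        push_cast
        by_contra hcon
        push Not at hcon
        nlinarith
      exact_mod_cast this
    have h3 := h m n (cx δ z) (cx δ w) hm1 hmn (by rw [← hd]; omega) S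
    rw [← hd] at h3
    refine h3.trans ?_
    have hm0 : (0 : ℝ) < m := by exact_mod_cast hm1
    have hn0 : (0 : ℝ) ≤ n := Nat.cast_nonneg n
    have hM : (0 : ℝ) < max (d : ℝ) m := lt_of_lt_of_le hm0 (le_max_right _ _)
    have h4 : max (dist z w) r ≤ 4 * (δ * max (d : ℝ) m) := by
      have u1 := mul_le_mul_of_nonneg_left (le_max_left (d : ℝ) m) hδ.le
      have u2 := mul_le_mul_of_nonneg_left (le_max_right (d : ℝ) m) hδ.le
      apply max_le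
      · linarith
      · linarith
    have h5 : (n : ℝ) / max (d : ℝ) m ≤ 4 * (η / max (dist z w) r) := by
      rw [div_le_iff₀ hM]
      have e1 : 4 * (η / max (dist z w) r) * max (d : ℝ) m =
          η * (4 * (δ * max (d : ℝ) m) / max (dist z w) r) / δ := by field_simp
      rw [e1, le_div_iff₀ hδ]
      have h6 : 1 ≤ 4 * (δ * max (d : ℝ) m) / max (dist z w) r := by
        rw [le_div_iff₀ hmx, one_mul]; exact h4
      nlinarith
    have h6 : ((n : ℝ) / max (d : ℝ) m) ^ ((5 : ℝ) / 48) ≤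
        4 * (η / max (dist z w) r) ^ ((5 : ℝ) / 48) := by
      calc ((n : ℝ) / max (d : ℝ) m) ^ ((5 : ℝ) / 48)
          ≤ (4 * (η / max (dist z w) r)) ^ ((5 : ℝ) / 48) :=
            Real.rpow_le_rpow (by positivity) h5 (by norm_num)
        _ = 4 ^ ((5 : ℝ) / 48) * (η / max (dist z w) r) ^ ((5 : ℝ) / 48) :=
            Real.mul_rpow (by norm_num) (by positivity)
        _ ≤ 4 * (η / max (dist z w) r) ^ ((5 : ℝ) / 48) := by
            apply mul_le_mul_of_nonneg_right _ (by positivity)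
            calc (4 : ℝ) ^ ((5 : ℝ) / 48) ≤ 4 ^ (1 : ℝ) :=
                  Real.rpow_le_rpow_of_exponent_le (by norm_num) (by norm_num)
              _ = 4 := Real.rpow_one _
    have hq2 : 0 ≤ barm (1 / 2) m n ^ 2 := sq_nonneg _
    have h7 := mul_le_mul_of_nonneg_left h6 (mul_nonneg hK.le hq2)
    calc K * barm (1 / 2) m n ^ 2 * ((n : ℝ) / max (d : ℝ) m) ^ ((5 : ℝ) / 48)
        ≤ K * barm (1 / 2) m n ^ 2 * (4 * (η / max (dist z w) r) ^ ((5 : ℝ) / 48)) := h7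
      _ ≤ _ := by nlinarith

end Pool.Agent.TH966.CF
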