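import Pool.Agent.H362P.Low

/-!
Connections from small boxes to the boundary of large boxes: probabilities for one box and for two
boxes.
-/

set_option autoImplicit false
set_option maxHeartbeats 1000000

namespace Pool.Agent.TH966.CF

open Finset H974 Pool.Agent.H160R2.CV
open Pool.Agent.H160R2.CV.Quad Pool.Agent.H389R2.CD H362P

theorem Ex1_of {F : Finset Edg} {c : Vtx} {r n : ℕ} (hrn : r ≤ n) {u w : Vtx}
    (hu : nv (u - c) ≤ r) (hw : n ≤ nv (w - c)) (h : Reach (↑F) u w) : Ex1 c r n F := by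
  refine Ex1_of_reach (A := ∅) hrn (fun e he => absurd he (by simp)) (u := u) (v := w) ?_ ?_ ?_
  · unfold nv at hu
    unfold inR
    simp only [Prod.fst_sub, Prod.snd_sub] at hu
    omega
  · unfold nv at hw
    simp only [Prod.fst_sub, Prod.snd_sub] at hw
    omega
  · rw [Set.union_empty]; exact h

theorem Ex1_inc (c : Vtx) (r n : ℕ) : IncA (Ex1 c r n) :=
  fun _ _ h hF => BArm.mono (LSym.mp_mono _ h) hF

theorem Ex1_loc (c : Vtx) (r n : ℕ) : LocE (bo c n) (Ex1 c r n) := by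
  intro F
  unfold Ex1
  rw [LSym.mp_inter, trl_bo]
  exact BArm_local (Finset.Subset.refl _)

theorem Ex1_loc' {c : Vtx} {r n : ℕ} {T : Finset Edg} (h : bo c n ⊆ T) : LocE T (Ex1 c r n) := by
  intro F
  rw [Ex1_loc c r n F, Ex1_loc c r n (F ∩ T), Finset.inter_assoc, Finset.inter_eq_right.mpr h]

theorem pr_Ex1_eq {c : Vtx} {r n : ℕ} {S : Finset Edg} (hS : bo c n ⊆ S) :
    Pr P S (Ex1 c r n) = barm (1 / 2) r n := le_antisymm (pr_Ex1 _ _ _ _) (pr_Ex1_ge hS)

theorem Ex1_shrink {c : Vtx} {r k n : ℕ} (hrk : r ≤ k) (hkn : k ≤ n) {F : Finset Edg}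
    (h : Ex1 c r n F) : Ex1 c r k F := by
  obtain ⟨u, w, h1, h2, h3⟩ := Ex1_out h
  exact Ex1_of hrk h1 (hkn.trans h2) h3

theorem Cr_of_Ex1 {c : Vtx} {r k n : ℕ} (hrk : r ≤ k) (hkn : k ≤ n) {F : Finset Edg}
    (h : Ex1 c r n F) : Cr c k n F := by
  obtain ⟨u, w, h1, h2, h3⟩ := Ex1_out h
  have hu : inR (c.1 - k) (c.1 + k) (c.2 - k) (c.2 + k) u := by
    unfold nv at h1
    unfold inR
    simp only [Prod.fst_sub, Prod.snd_sub] at h1
    omega
  obtain ⟨z, k1, k2, k3⟩ := first_exit (a := c.1 - n) (b := c.1 + n) (c := c.2 - n)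
    (d := c.2 + n) (u := u) (v := w) (by unfold inR at hu ⊢; omega) h3 (by
      unfold nv at h2
      simp only [Prod.fst_sub, Prod.snd_sub] at h2
      omega)
  obtain ⟨y, hy, hr⟩ := last_exit (a := c.1 - k) (b := c.1 + k) (c := c.2 - k) (d := c.2 + k) hu k3
  refine ⟨y, z, hy, k1, k2, hr.mono ?_⟩
  intro e he
  refine ⟨he.1.1, ?_⟩
  rw [Finset.coe_sdiff]
  exact ⟨he.1.2, he.2⟩

/-- Two distant boxes are independent. -/
theorem two_far {x y : Vtx} {m n : ℕ} (h : 2 * n + 1 ≤ nv (x - y)) (S : Finset Edg) :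
    Pr P S (fun F => Ex1 x m n F ∧ Ex1 y m n F) ≤ barm (1 / 2) m n ^ 2 := by
  have h1 := indep2 S (bo x n) (bo y n) (bo_disj (by omega)) (Ex1_inc x m n) (Ex1_inc y m n)
    (Ex1_loc x m n) (Ex1_loc y m n)
  rw [pr_Ex1_eq (Finset.Subset.refl _), pr_Ex1_eq (Finset.Subset.refl _), ← pow_two] at h1
  exact h1

theorem two_mid {x y : Vtx} {m k n : ℕ} (hmk : m ≤ k) (hkn : k ≤ n)
    (h : 2 * k + 1 ≤ nv (x - y)) (S : Finset Edg) :
    Pr P S (fun F => Ex1 x m n F ∧ Ex1 y m n F) ≤ barm (1 / 2) m k ^ 2 :=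
  (Pr_mono Quad.okP (fun _ _ hF => ⟨Ex1_shrink hmk hkn hF.1, Ex1_shrink hmk hkn hF.2⟩)).trans
    (two_far h S)

theorem two_near {x y : Vtx} {m k d n : ℕ} (hmk : m ≤ k) (hd : nv (x - y) = d)
    (h : 2 * k + 1 ≤ d) (hdn : 2 * d ≤ n) (S : Finset Edg) :
    Pr P S (fun F => Ex1 x m n F ∧ Ex1 y m n F) ≤
      barm (1 / 2) m k ^ 2 * barm (1 / 2) (2 * d) n := by
  have hA2 : ∀ F, (Ex1 x m n F ∧ Ex1 y m n F) →
      ((Ex1 x m k F ∧ Ex1 y m k F) ∧ Cr x (2 * d) n F) := fun F hF =>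
    ⟨⟨Ex1_shrink hmk (by omega) hF.1, Ex1_shrink hmk (by omega) hF.2⟩,
      Cr_of_Ex1 (by omega) hdn hF.1⟩
  have hsub : bo x k ∪ bo y k ⊆ bo x (2 * d) := by
    unfold nv at hd
    simp only [Prod.fst_sub, Prod.snd_sub] at hd
    apply Finset.union_subset
    · unfold bo
      apply RE_subset <;> push_cast <;> omega
    · unfold bo
      apply RE_subset <;> push_cast <;> omega
  have hdis : Disjoint (bo x k ∪ bo y k) (bo x n \ bo x (2 * d)) :=
    Finset.disjoint_of_subset_left hsub Finset.disjoint_sdiff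
  have hl : LocE (bo x k ∪ bo y k) (fun F => Ex1 x m k F ∧ Ex1 y m k F) := by
    intro F
    have e1 := Ex1_loc' (c := x) (r := m) (n := k) (T := bo x k ∪ bo y k)
      Finset.subset_union_left F
    have e2 := Ex1_loc' (c := y) (r := m) (n := k) (T := bo x k ∪ bo y k)
      Finset.subset_union_right F
    show (Ex1 x m k F ∧ Ex1 y m k F) ↔ _
    rw [e1, e2]
  have h1 := indep2 S (bo x k ∪ bo y k) (bo x n \ bo x (2 * d)) hdis
    (A := fun F => Ex1 x m k F ∧ Ex1 y m k F) (B := Cr x (2 * d) n)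
    (fun F G h hF => ⟨Ex1_inc _ _ _ F G h hF.1, Ex1_inc _ _ _ F G h hF.2⟩) (Cr_inc _ _ _) hl Cr_loc
  refine (Pr_mono Quad.okP (fun F _ hF => hA2 F hF)).trans (h1.trans ?_)
  exact mul_le_mul (two_far (by omega) _) (pr_Cr _ _ _ _) (Pr_nonneg Quad.okP _ _) (by positivity)

/-- Lower bound for the probability of one box. -/
theorem barm_ge (hAr : ArS) : ∃ c : ℝ, 0 < c ∧ ∀ m n : ℕ, 1 ≤ m → m ≤ n →
    c * ((m : ℝ) / n) ^ ((5 : ℝ) / 48) ≤ barm (1 / 2) m n := by
  obtain ⟨c0, C0, hc0, hC0, har⟩ := hAr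
  refine ⟨c0 / C0, by positivity, ?_⟩
  intro m n hm hmn
  have h1 := ar_split hmn
  have h2 := (har n (hm.trans hmn)).1
  have h3 := (har m hm).2
  have hm0 : (0 : ℝ) < m := by exact_mod_cast hm
  have hn0 : (0 : ℝ) < n := by exact_mod_cast (hm.trans hmn)
  have hb := barm_nonneg (q := 1 / 2) (by norm_num) (by norm_num) m n
  have h4 : c0 * (n : ℝ) ^ (-(5 / 48 : ℝ)) ≤ C0 * (m : ℝ) ^ (-(5 / 48 : ℝ)) * barm (1 / 2) m n :=
    h2.trans (h1.trans (mul_le_mul_of_nonneg_right h3 hb))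
  have hmp : (0 : ℝ) < (m : ℝ) ^ (-(5 / 48 : ℝ)) := Real.rpow_pos_of_pos hm0 _
  have e : ((m : ℝ) / n) ^ ((5 : ℝ) / 48) = (n : ℝ) ^ (-(5 / 48 : ℝ)) / (m : ℝ) ^ (-(5 / 48 : ℝ)) := by
    rw [Real.rpow_neg hn0.le, Real.rpow_neg hm0.le, Real.div_rpow hm0.le hn0.le]
    field_simp
  rw [e]
  calc c0 / C0 * ((n : ℝ) ^ (-(5 / 48 : ℝ)) / (m : ℝ) ^ (-(5 / 48 : ℝ)))
      = (c0 * (n : ℝ) ^ (-(5 / 48 : ℝ))) / (C0 * (m : ℝ) ^ (-(5 / 48 : ℝ))) := by
        field_simp
    _ ≤ _ := by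
        rw [div_le_iff₀ (by positivity)]
        linarith

/-- **Two boxes at distance at most `2 n`.** -/
theorem two_le (hAr : ArS) : ∃ K : ℝ, 0 < K ∧ ∀ (m n : ℕ) (x y : Vtx), 1 ≤ m → 3 * m ≤ n →
    nv (x - y) ≤ 2 * n → ∀ S : Finset Edg,
    Pr P S (fun F => Ex1 x m n F ∧ Ex1 y m n F) ≤
      K * barm (1 / 2) m n ^ 2 * ((n : ℝ) / max (nv (x - y) : ℝ) m) ^ ((5 : ℝ) / 48) := by
  obtain ⟨c, hc, hlo⟩ := barm_ge hAr
  obtain ⟨C, hC, hup⟩ := barm_le hAr
  obtain ⟨K, hK⟩ : ∃ K : ℝ, K = 16 / c + 96 * C ^ 2 / c ^ 2 + 32 * C ^ 3 / c ^ 2 := ⟨_, rfl⟩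
  have k1 : 16 / c ≤ K := by
    have : 0 ≤ 96 * C ^ 2 / c ^ 2 := by positivity
    have : 0 ≤ 32 * C ^ 3 / c ^ 2 := by positivity
    linarith
  have k2 : 96 * C ^ 2 / c ^ 2 ≤ K := by
    have : 0 ≤ 16 / c := by positivity
    have : 0 ≤ 32 * C ^ 3 / c ^ 2 := by positivity
    linarith
  have k3 : 32 * C ^ 3 / c ^ 2 ≤ K := by
    have : 0 ≤ 16 / c := by positivity
    have : 0 ≤ 96 * C ^ 2 / c ^ 2 := by positivity
    linarith
  refine ⟨K, by rw [hK]; positivity, ?_⟩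
  intro m n x y hm hmn hd S
  set d := nv (x - y) with hdd
  have hm0 : (0 : ℝ) < m := by exact_mod_cast hm
  have hn0 : (0 : ℝ) < n := by
    have : 0 < n := by omega
    exact_mod_cast this
  set q := barm (1 / 2) m n with hq
  have hlow := hlo m n hm (by omega)
  set ρ : ℝ := ((m : ℝ) / n) ^ ((5 : ℝ) / 48) with hρ
  have hρ0 : 0 < ρ := by rw [hρ]; positivity
  have hq0 : 0 < q := lt_of_lt_of_le (by positivity) hlow
  have hρq : ρ ≤ q / c := by rw [le_div_iff₀ hc]; linarith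
  have hρq2 : ρ ^ 2 ≤ q ^ 2 / c ^ 2 := by
    rw [← div_pow]
    exact pow_le_pow_left₀ hρ0.le hρq 2
  have hmx : (0 : ℝ) < max (d : ℝ) m := lt_of_lt_of_le hm0 (le_max_right _ _)
  set X : ℝ := ((n : ℝ) / max (d : ℝ) m) ^ ((5 : ℝ) / 48) with hX
  have hX0 : 0 < X := by rw [hX]; positivity
  -- powers of constants
  have hpow : ∀ a : ℝ, 1 ≤ a → a ^ ((5 : ℝ) / 48) ≤ a := fun a ha => by
    calc a ^ ((5 : ℝ) / 48) ≤ a ^ (1 : ℝ) := Real.rpow_le_rpow_of_exponent_le ha (by norm_num)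
      _ = a := Real.rpow_one a
  by_cases h1 : d ≤ 16 * m
  · -- close boxes
    have p1 : Pr P S (fun F => Ex1 x m n F ∧ Ex1 y m n F) ≤ q :=
      (Pr_mono Quad.okP (fun _ _ hF => hF.1)).trans (pr_Ex1 S x m n)
    have p2 : (1 : ℝ) ≤ 16 * (ρ * X) := by
      rw [hρ, hX, ← Real.mul_rpow (by positivity) (by positivity)]
      have e1 : (m : ℝ) / n * ((n : ℝ) / max (d : ℝ) m) = m / max (d : ℝ) m := by field_simp
      rw [e1]
      have h2 : max (d : ℝ) m ≤ 16 * m := by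
        apply max_le
        · exact_mod_cast h1
        · linarith
      have h3 : (1 : ℝ) ≤ 16 * (m / max (d : ℝ) m) := by
        rw [← mul_div_assoc, le_div_iff₀ hmx]
        linarith
      have h4 : (1 : ℝ) ≤ (16 * (m / max (d : ℝ) m)) ^ ((5 : ℝ) / 48) :=
        Real.one_le_rpow h3 (by norm_num)
      rw [Real.mul_rpow (by norm_num) (by positivity)] at h4
      have h5 := hpow 16 (by norm_num)
      have h6 : 0 ≤ ((m : ℝ) / max (d : ℝ) m) ^ ((5 : ℝ) / 48) := by positivity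
      nlinarith
    calc Pr P S (fun F => Ex1 x m n F ∧ Ex1 y m n F) ≤ q := p1
      _ ≤ q * (16 * (ρ * X)) := by nlinarith
      _ ≤ q * (16 * (q / c * X)) := by
          apply mul_le_mul_of_nonneg_left _ hq0.le
          apply mul_le_mul_of_nonneg_left _ (by norm_num)
          exact mul_le_mul_of_nonneg_right hρq hX0.le
      _ = 16 / c * q ^ 2 * X := by ring
      _ ≤ K * q ^ 2 * X := by
          apply mul_le_mul_of_nonneg_right _ hX0.le
          exact mul_le_mul_of_nonneg_right k1 (by positivity)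
  · push Not at h1
    obtain ⟨k, hk⟩ : ∃ k, k = (d - 1) / 3 := ⟨_, rfl⟩
    have hk3 : 3 * m ≤ k := by omega
    have hk4 : d ≤ 4 * k := by omega
    have hkd : 2 * k + 1 ≤ d := by omega
    have hkn : k ≤ n := by omega
    have hk0 : (0 : ℝ) < k := by
      have : 0 < k := by omega
      exact_mod_cast this
    have hd0 : (0 : ℝ) < d := by
      have : 0 < d := by omega
      exact_mod_cast this
    have hmxe : max (d : ℝ) m = d := by
      apply max_eq_left
      have : m ≤ d := by omega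
      exact_mod_cast this
    have hb1 := hup m k hm hk3
    have hb0 := barm_nonneg (q := 1 / 2) (by norm_num) (by norm_num) m k
    -- compare `m / k` with `m / n` and `n / d`
    have hmk : ((m : ℝ) / k) ^ ((5 : ℝ) / 48) ≤ 4 * (ρ * X) := by
      have e1 : ρ * X = ((m : ℝ) / d) ^ ((5 : ℝ) / 48) := by
        rw [hρ, hX, hmxe, ← Real.mul_rpow (by positivity) (by positivity)]
        congr 1
        field_simp
      rw [e1]
      have e2 : (m : ℝ) / k ≤ 4 * (m / d) := by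
        rw [div_le_iff₀ hk0]
        have h4 : (d : ℝ) ≤ 4 * k := by exact_mod_cast hk4
        have : 4 * ((m : ℝ) / d) * k = m * (4 * k / d) := by ring
        rw [this]
        have h5 : 1 ≤ 4 * (k : ℝ) / d := by rw [le_div_iff₀ hd0]; linarith
        nlinarith
      calc ((m : ℝ) / k) ^ ((5 : ℝ) / 48) ≤ (4 * (m / d)) ^ ((5 : ℝ) / 48) :=
            Real.rpow_le_rpow (by positivity) e2 (by norm_num)
        _ = 4 ^ ((5 : ℝ) / 48) * ((m : ℝ) / d) ^ ((5 : ℝ) / 48) :=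
            Real.mul_rpow (by norm_num) (by positivity)
        _ ≤ 4 * ((m : ℝ) / d) ^ ((5 : ℝ) / 48) :=
            mul_le_mul_of_nonneg_right (hpow 4 (by norm_num)) (by positivity)
    have hbk : barm (1 / 2) m k ≤ 4 * C * (ρ * X) := by
      refine hb1.trans ?_
      have := mul_le_mul_of_nonneg_left hmk hC.le
      linarith
    have hbk2 : barm (1 / 2) m k ^ 2 ≤ 16 * C ^ 2 * (ρ ^ 2 * X ^ 2) := by
      have := pow_le_pow_left₀ hb0 hbk 2
      calc barm (1 / 2) m k ^ 2 ≤ (4 * C * (ρ * X)) ^ 2 := this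
        _ = _ := by ring
    by_cases h2 : 6 * d ≤ n
    · have p1 := two_near (k := k) (m := m) (x := x) (y := y) (by omega) hdd.symm hkd
        (show 2 * d ≤ n by omega) S
      have hb2 := hup (2 * d) n (by omega) (by omega)
      have hb3 : barm (1 / 2) (2 * d) n ≤ 2 * C * X⁻¹ := by
        refine hb2.trans ?_
        have e1 : X⁻¹ = ((d : ℝ) / n) ^ ((5 : ℝ) / 48) := by
          rw [hX, hmxe, ← Real.inv_rpow (by positivity), inv_div]
        rw [e1]
        push_cast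
        have e2 : (2 * (d : ℝ)) / n = 2 * (d / n) := by ring
        rw [e2, Real.mul_rpow (by norm_num) (by positivity)]
        have h5 := hpow 2 (by norm_num)
        have h6 : 0 ≤ ((d : ℝ) / n) ^ ((5 : ℝ) / 48) := by positivity
        have h7 := mul_le_mul_of_nonneg_right h5 h6
        have h8 := mul_le_mul_of_nonneg_left h7 hC.le
        linarith
      have hb4 := barm_nonneg (q := 1 / 2) (by norm_num) (by norm_num) (2 * d) n
      calc Pr P S (fun F => Ex1 x m n F ∧ Ex1 y m n F)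
          ≤ barm (1 / 2) m k ^ 2 * barm (1 / 2) (2 * d) n := p1
        _ ≤ (16 * C ^ 2 * (ρ ^ 2 * X ^ 2)) * (2 * C * X⁻¹) :=
            mul_le_mul hbk2 hb3 hb4 (by positivity)
        _ = 32 * C ^ 3 * ρ ^ 2 * X := by field_simp; ring
        _ ≤ 32 * C ^ 3 * (q ^ 2 / c ^ 2) * X := by
            apply mul_le_mul_of_nonneg_right _ hX0.le
            exact mul_le_mul_of_nonneg_left hρq2 (by positivity)
        _ = 32 * C ^ 3 / c ^ 2 * q ^ 2 * X := by ring
        _ ≤ K * q ^ 2 * X := by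
          apply mul_le_mul_of_nonneg_right _ hX0.le
          exact mul_le_mul_of_nonneg_right k3 (by positivity)
    · push Not at h2
      have p1 := two_mid (k := k) (m := m) (n := n) (x := x) (y := y) (by omega) hkn
        (by omega) S
      have hX6 : X ≤ 6 := by
        rw [hX, hmxe]
        have e1 : (n : ℝ) / d ≤ 6 := by
          rw [div_le_iff₀ hd0]
          exact_mod_cast h2.le
        calc ((n : ℝ) / d) ^ ((5 : ℝ) / 48) ≤ 6 ^ ((5 : ℝ) / 48) :=
              Real.rpow_le_rpow (by positivity) e1 (by norm_num)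
          _ ≤ 6 := hpow 6 (by norm_num)
      calc Pr P S (fun F => Ex1 x m n F ∧ Ex1 y m n F)
          ≤ barm (1 / 2) m k ^ 2 := p1
        _ ≤ 16 * C ^ 2 * (ρ ^ 2 * X ^ 2) := hbk2
        _ ≤ 16 * C ^ 2 * (ρ ^ 2 * (6 * X)) := by
            apply mul_le_mul_of_nonneg_left _ (by positivity)
            apply mul_le_mul_of_nonneg_left _ (by positivity)
            nlinarith
        _ = 96 * C ^ 2 * ρ ^ 2 * X := by ring
        _ ≤ 96 * C ^ 2 * (q ^ 2 / c ^ 2) * X := by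
            apply mul_le_mul_of_nonneg_right _ hX0.le
            exact mul_le_mul_of_nonneg_left hρq2 (by positivity)
        _ = 96 * C ^ 2 / c ^ 2 * q ^ 2 * X := by ring
        _ ≤ K * q ^ 2 * X := by
          apply mul_le_mul_of_nonneg_right _ hX0.le
          exact mul_le_mul_of_nonneg_right k2 (by positivity)

end Pool.Agent.TH966.CF
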