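import Pool.Agent.TH966.CF.Lim
import Pool.Agent.TH966.CF.FSD

/-!
The limit: upper bound for the dimension of the large clusters in a fixed set.
-/

set_option autoImplicit false
set_option maxHeartbeats 1000000

namespace Pool.Agent.TH966.CF

open H974 H934E Pool.Agent.H160R2.CV MeasureTheory TopologicalSpace Filter Topology Metric Set
open Pool.Agent.H389R2.Dim Pool.Agent.H389R2.CD Pool.Agent.H389R2.CL
open scoped ENNReal NNReal

theorem isOpen_D (R : Rect) : IsOpen R.D := by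
  have h1 : IsOpen {z : ℂ | -R.A < z.re} := isOpen_lt continuous_const Complex.continuous_re
  have h2 : IsOpen {z : ℂ | z.re < R.B} := isOpen_lt Complex.continuous_re continuous_const
  have h3 : IsOpen {z : ℂ | 0 < z.im} := isOpen_lt continuous_const Complex.continuous_im
  have h4 : IsOpen {z : ℂ | z.im < R.H} := isOpen_lt Complex.continuous_im continuous_const
  exact h1.inter (h2.inter (h3.inter h4))

theorem hit_meas (η : ℝ) (z : ℂ) (r : ℝ) : MeasurableSet (Hit (U η) z r) := by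
  have h := NonemptyCompacts.isClosed_inter_nonempty_of_isClosed ((isClosed_diam_ge (X := ℂ) η).inter
    (NonemptyCompacts.isClosed_inter_nonempty_of_isClosed (isClosed_closedBall (x := z) (ε := r))))
  convert h.measurableSet using 1
  ext 𝒞
  constructor
  · rintro ⟨x, ⟨K, h1, h2, h3⟩, h4⟩
    exact ⟨K, h1, h2, x, h3, h4⟩
  · rintro ⟨K, h1, h2, x, h3, h4⟩
    exact ⟨x, ⟨K, h1, h2, h3⟩, h4⟩

/-- Sets meeting a square and leaving a larger one. -/
def Vc (z : ℂ) (s ρ : ℝ) : Set (NonemptyCompacts ℂ) :=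
  {K | ((K : Set ℂ) ∩ sq z s).Nonempty ∧ ((K : Set ℂ) ∩ (csq z ρ)ᶜ).Nonempty}

theorem isOpen_Vc (z : ℂ) (s ρ : ℝ) : IsOpen (Vc z s ρ) :=
  (NonemptyCompacts.isOpen_inter_nonempty_of_isOpen (isOpen_sq z s)).inter
    (NonemptyCompacts.isOpen_inter_nonempty_of_isOpen (isClosed_csq z ρ).isOpen_compl)

theorem csq_diam {z : ℂ} {ρ : ℝ} (hρ : 0 ≤ ρ) {K : NonemptyCompacts ℂ}
    (h : (K : Set ℂ) ⊆ csq z ρ) : diam (K : Set ℂ) ≤ 4 * ρ := by
  apply diam_le_of_forall_dist_le (by positivity)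
  intro x hx y hy
  obtain ⟨h1, h2⟩ := h hx
  obtain ⟨h3, h4⟩ := h hy
  rw [Complex.dist_eq]
  refine (Complex.norm_le_abs_re_add_abs_im _).trans ?_
  rw [Complex.sub_re, Complex.sub_im]
  rw [abs_le] at h1 h2 h3 h4
  have k1 : |x.re - y.re| ≤ 2 * ρ := by rw [abs_le]; constructor <;> linarith
  have k2 : |x.im - y.im| ≤ 2 * ρ := by rw [abs_le]; constructor <;> linarith
  linarith

section

variable (hAr : ArS) (R : Rect) {δ : ℕ → ℝ} (hδ : ∀ i, 0 < δ i) (hlim : Tendsto δ atTop (𝓝 0))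
  {μ : ProbabilityMeasure (NonemptyCompacts (NonemptyCompacts ℂ))}
  (hμ : Tendsto (fun i => collLaw R (δ i)) atTop (𝓝 μ))

include hAr hδ hlim hμ

theorem U_upper {A : Set ℂ} (hA : A ⊆ R.D) {η : ℝ} (hη : 0 < η) :
    ∀ᵐ 𝒞 : NonemptyCompacts (NonemptyCompacts ℂ)
      ∂(μ : Measure (NonemptyCompacts (NonemptyCompacts ℂ))),
      dimH (U η 𝒞 ∩ A) ≤ dimH A - ENNReal.ofReal (5 / 48) ∧
        (μH[(5 / 48 : ℝ)] A = 0 → U η 𝒞 ∩ A = ∅) := by
  obtain ⟨C, hC, hup⟩ := disc_upper hAr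
  refine dim_inter (by norm_num) (isOpen_D R) hA (hit_meas η) ?_
  intro n
  obtain ⟨ρ, hρ⟩ : ∃ ρ : ℝ, ρ = min (η / 8) (1 / (4 * ((n : ℝ) + 1))) := ⟨_, rfl⟩
  have hρ0 : 0 < ρ := by rw [hρ]; positivity
  have hρ1 : ρ ≤ η / 8 := by rw [hρ]; exact min_le_left _ _
  have hρ2 : ρ ≤ 1 / (4 * ((n : ℝ) + 1)) := by rw [hρ]; exact min_le_right _ _
  refine ⟨ENNReal.ofReal (C * (2 / ρ) ^ ((5 : ℝ) / 48)), ρ / 32, ENNReal.ofReal_ne_top,
    by positivity, ?_⟩
  intro z hz r hr hr0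
  have hn0 : (0 : ℝ) < 1 / ((n : ℝ) + 1) := by positivity
  have hD : csq z ρ ⊆ R.D := by
    refine Set.Subset.trans (csq_sub_ball (w := z) (ε := 1 / ((n : ℝ) + 1)) ?_) hz.2
    rw [sub_self, sub_self, abs_zero, zero_add]
    have e : 1 / (4 * ((n : ℝ) + 1)) = 1 / 4 * (1 / ((n : ℝ) + 1)) := by
      field_simp
    rw [e] at hρ2
    linarith
  have hsub : Hit (U η) z r ⊆ {𝒞 : NonemptyCompacts (NonemptyCompacts ℂ) |
      ((𝒞 : Set (NonemptyCompacts ℂ)) ∩ Vc z (2 * r) ρ).Nonempty} := by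
    rintro 𝒞 ⟨x, ⟨K, h1, h2, h3⟩, h4⟩
    refine ⟨K, h1, ⟨x, h3, ?_⟩, ?_⟩
    · rw [mem_closedBall, Complex.dist_eq] at h4
      have k1 := (Complex.abs_re_le_norm (x - z)).trans h4
      have k2 := (Complex.abs_im_le_norm (x - z)).trans h4
      rw [Complex.sub_re] at k1
      rw [Complex.sub_im] at k2
      exact ⟨by linarith, by linarith⟩
    · by_contra hcon
      rw [Set.not_nonempty_iff_eq_empty] at hcon
      have hK : (K : Set ℂ) ⊆ csq z ρ := by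
        intro y hy
        by_contra hy2
        have : y ∈ (K : Set ℂ) ∩ (csq z ρ)ᶜ := ⟨hy, hy2⟩
        rw [hcon] at this
        exact this
      have := csq_diam hρ0.le hK
      linarith
  refine (measure_mono hsub).trans ?_
  have h5 := coll_lim_le R hμ (isOpen_Vc z (2 * r) ρ) (q := C * (2 * r / ρ) ^ ((5 : ℝ) / 48)) (by
    apply Eventually.frequently
    filter_upwards [hlim.eventually_lt_const (show (0 : ℝ) < 2 * r / 16 by positivity)] with i hi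
    exact hup R z ρ (2 * r) (δ i) (by positivity) (by linarith) hD (hδ i) (by linarith))
  refine h5.trans (le_of_eq ?_)
  rw [ENNReal.ofReal_rpow_of_pos hr, ← ENNReal.ofReal_mul (by positivity), mul_assoc,
    ← Real.mul_rpow (by positivity) hr.le]
  congr 3
  ring

/-- Upper bound for all nontrivial members. -/
theorem all_upper {A : Set ℂ} (hA : A ⊆ R.D) :
    ∀ᵐ 𝒞 : NonemptyCompacts (NonemptyCompacts ℂ)
      ∂(μ : Measure (NonemptyCompacts (NonemptyCompacts ℂ))),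
      ∀ K ∈ 𝒞, (K : Set ℂ).Nontrivial →
        dimH ((K : Set ℂ) ∩ A) ≤ dimH A - ENNReal.ofReal (5 / 48) ∧
        (μH[(5 / 48 : ℝ)] A = 0 → (K : Set ℂ) ∩ A = ∅) := by
  have h : ∀ n : ℕ, ∀ᵐ 𝒞 : NonemptyCompacts (NonemptyCompacts ℂ)
      ∂(μ : Measure (NonemptyCompacts (NonemptyCompacts ℂ))),
      dimH (U (1 / ((n : ℝ) + 1)) 𝒞 ∩ A) ≤ dimH A - ENNReal.ofReal (5 / 48) ∧
        (μH[(5 / 48 : ℝ)] A = 0 → U (1 / ((n : ℝ) + 1)) 𝒞 ∩ A = ∅) :=
    fun n => U_upper hAr R hδ hlim hμ hA (by positivity)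
  filter_upwards [ae_all_iff.mpr h] with 𝒞 h𝒞 K hK hnt
  have hd : 0 < diam (K : Set ℂ) := by
    obtain ⟨x, hx, y, hy, hxy⟩ := hnt
    exact lt_of_lt_of_le (dist_pos.mpr hxy) (dist_le_diam_of_mem K.isCompact.isBounded hx hy)
  obtain ⟨n, hn⟩ := exists_nat_one_div_lt hd
  have hsub : (K : Set ℂ) ∩ A ⊆ U (1 / ((n : ℝ) + 1)) 𝒞 ∩ A := fun x hx =>
    ⟨⟨K, hK, hn.le, hx.1⟩, hx.2⟩
  refine ⟨(dimH_mono hsub).trans (h𝒞 n).1, fun h0 => ?_⟩
  exact Set.subset_empty_iff.mp (hsub.trans ((h𝒞 n).2 h0).subset)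

end

end Pool.Agent.TH966.CF
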